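import Pool.Agent.T2H86.TU.TwoPart

/-!
Part 2: the average over a random partition.
-/

set_option autoImplicit false
set_option linter.unusedSectionVars false

namespace Pool.Agent.T2H86.TU

open Finset Pool.Agent.H613T Pool.Agent.H123R2 Pool.Agent.W724.TG

/-- the first part of a random partition -/
def trueSet {n : ℕ} (g : Fin n → Bool) : Finset (Fin n) := univ.filter (fun v => g v = true)

theorem avg_sets {n : ℕ} (a : ℝ) (S S' : Finset (Fin n)) :
    avg (wB a) (fun g : Fin n → Bool => (if S ⊆ trueSet g then (1 : ℝ) else 0) *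
      (if S' ⊆ (trueSet g)ᶜ then (1 : ℝ) else 0)) =
      if Disjoint S S' then a ^ S.card * (1 - a) ^ S'.card else 0 := by
  classical
  by_cases hd : Disjoint S S'
  · rw [if_pos hd]
    have h1 : (fun g : Fin n → Bool => (if S ⊆ trueSet g then (1 : ℝ) else 0) *
        (if S' ⊆ (trueSet g)ᶜ then (1 : ℝ) else 0)) =
        fun g => if ∀ v ∈ S ∪ S', g v = (fun v => decide (v ∈ S)) v then (1 : ℝ) else 0 := by
      ext g
      have hiff : (∀ v ∈ S ∪ S', g v = (fun v => decide (v ∈ S)) v) ↔
          (S ⊆ trueSet g ∧ S' ⊆ (trueSet g)ᶜ) := by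
        constructor
        · intro h
          constructor
          · intro v hv
            have := h v (mem_union_left _ hv)
            simp only [hv, decide_true] at this
            simp [trueSet, this]
          · intro v hv
            have h2 := h v (mem_union_right _ hv)
            have h3 : v ∉ S := fun h' => Finset.disjoint_left.1 hd h' hv
            simp only [h3, decide_false] at h2
            simp [trueSet, h2]
        · rintro ⟨h2, h3⟩ v hv
          rcases mem_union.1 hv with hv | hv
          · have := h2 hv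
            simp only [trueSet, mem_filter, mem_univ, true_and] at this
            simp only [hv, decide_true, this]
          · have h4 := h3 hv
            have h5 : v ∉ S := fun h' => Finset.disjoint_left.1 hd h' hv
            simp only [trueSet, mem_compl, mem_filter, mem_univ, true_and,
              Bool.not_eq_true] at h4
            simp only [h5, decide_false, h4]
      by_cases hc : ∀ v ∈ S ∪ S', g v = (fun v => decide (v ∈ S)) v
      · rw [if_pos hc, if_pos (hiff.1 hc).1, if_pos (hiff.1 hc).2, one_mul]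
      · rw [if_neg hc]
        by_cases h2 : S ⊆ trueSet g
        · rw [if_neg (fun h3 => hc (hiff.2 ⟨h2, h3⟩)), mul_zero]
        · rw [if_neg h2, zero_mul]
    rw [h1]
    refine (avg_assign (wB a) (wB_sum a) (fun v => decide (v ∈ S)) (S ∪ S')).trans ?_
    rw [prod_union hd]
    congr 1
    · rw [prod_congr rfl (fun v hv => show wB a (decide (v ∈ S)) = a by simp [wB, hv]), prod_const]
    · rw [prod_congr rfl (fun v hv => show wB a (decide (v ∈ S)) = 1 - a by
        have : v ∉ S := fun h' => Finset.disjoint_left.1 hd h' hv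
        simp [wB, this]), prod_const]
  · rw [if_neg hd]
    have h1 : (fun g : Fin n → Bool => (if S ⊆ trueSet g then (1 : ℝ) else 0) *
        (if S' ⊆ (trueSet g)ᶜ then (1 : ℝ) else 0)) = fun _ => 0 := by
      ext g
      rw [Finset.not_disjoint_iff] at hd
      obtain ⟨v, hv, hv'⟩ := hd
      by_cases h2 : S ⊆ trueSet g
      · have h4 : ¬ S' ⊆ (trueSet g)ᶜ := fun h3 => (mem_compl.1 (h3 hv')) (h2 hv)
        rw [if_neg h4, mul_zero]
      · rw [if_neg h2, zero_mul]
    rw [h1, avg_const _ (wB_sum a)]

/-- the expected number of `t`-sets with `z` points in the first part -/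
theorem avg_split {n : ℕ} (a : ℝ) {z t : ℕ} (hz : z ≤ t) :
    avg (wB a) (fun g : Fin n → Bool => ((trueSet g).card.choose z : ℝ) *
      ((trueSet g)ᶜ.card.choose (t - z) : ℝ)) =
      (n.choose t : ℝ) * ((t.choose z : ℝ) * (a ^ z * (1 - a) ^ (t - z))) := by
  classical
  have h0 : ∀ (B : Finset (Fin n)) (j : ℕ), (B.card.choose j : ℝ) =
      ∑ S ∈ powersetCard j (univ : Finset (Fin n)), if S ⊆ B then (1 : ℝ) else 0 := by
    intro B j
    rw [← card_powersetCard, ← sum_filter, sum_const, nsmul_eq_mul, mul_one]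
    congr 2
    ext S
    rw [mem_filter, mem_powersetCard, mem_powersetCard]
    exact ⟨fun h => ⟨⟨subset_univ _, h.2⟩, h.1⟩, fun h => ⟨h.2, h.1.2⟩⟩
  have h1 : (fun g : Fin n → Bool => ((trueSet g).card.choose z : ℝ) *
      ((trueSet g)ᶜ.card.choose (t - z) : ℝ)) = fun g =>
      ∑ S ∈ powersetCard z (univ : Finset (Fin n)), ∑ S' ∈ powersetCard (t - z) (univ : Finset (Fin n)),
        (if S ⊆ trueSet g then (1 : ℝ) else 0) * (if S' ⊆ (trueSet g)ᶜ then (1 : ℝ) else 0) := by
    ext g
    rw [h0, h0, sum_mul_sum]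
  rw [h1, avg_sum]
  have h2 : ∀ S ∈ powersetCard z (univ : Finset (Fin n)),
      avg (wB a) (fun g : Fin n → Bool => ∑ S' ∈ powersetCard (t - z) (univ : Finset (Fin n)),
        (if S ⊆ trueSet g then (1 : ℝ) else 0) * (if S' ⊆ (trueSet g)ᶜ then (1 : ℝ) else 0)) =
      ((n - z).choose (t - z) : ℝ) * (a ^ z * (1 - a) ^ (t - z)) := by
    intro S hS
    have hSc := (mem_powersetCard.1 hS).2
    rw [avg_sum, sum_congr rfl fun S' _ => avg_sets a S S', ← sum_filter]
    have h3 : (powersetCard (t - z) (univ : Finset (Fin n))).filter (fun S' => Disjoint S S') =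
        powersetCard (t - z) Sᶜ := by
      ext S'
      rw [mem_filter, mem_powersetCard, mem_powersetCard]
      constructor
      · rintro ⟨⟨_, h4⟩, h5⟩
        exact ⟨fun v hv => mem_compl.2 fun hv' => Finset.disjoint_left.1 h5 hv' hv, h4⟩
      · rintro ⟨h4, h5⟩
        exact ⟨⟨subset_univ _, h5⟩, Finset.disjoint_left.2 fun v hv hv' => (mem_compl.1 (h4 hv')) hv⟩
    rw [h3, sum_congr rfl fun S' hS' => by rw [hSc, (mem_powersetCard.1 hS').2], sum_const,
      card_powersetCard, card_compl, Fintype.card_fin, hSc, nsmul_eq_mul]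
  rw [sum_congr rfl h2, sum_const, card_powersetCard, card_univ, Fintype.card_fin, nsmul_eq_mul,
    ← mul_assoc, ← mul_assoc]
  have h4 := Nat.choose_mul (n := n) (k := t) (s := z) hz
  have h5 : (n.choose z : ℝ) * ((n - z).choose (t - z) : ℝ) = (n.choose t : ℝ) * (t.choose z : ℝ) := by
    exact_mod_cast h4.symm
  rw [h5]
  ring

/-- the recursion over a random partition into two parts -/
theorem two_part_raw {R t : ℕ} (hRt : R ≤ t) {L M a : ℝ} (hL : 0 ≤ L)
    (ha0 : 0 ≤ a) (ha1 : a ≤ 1) (h : ∀ j ≤ t, TD R j (M / ((j + R).choose R : ℝ))) :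
    TD R t (∑ z ∈ range (t + 1), ((t.choose z : ℝ) * (a ^ z * (1 - a) ^ (t - z))) *
      ((if z + R ≤ t then L else M) / ((z + R).choose R : ℝ) +
        (if z < R then 1 else Real.exp (-L)) * (M / ((t - z + R).choose R : ℝ)))) := by
  classical
  intro n
  obtain ⟨g, hg⟩ := exists_le_avg (wB a) (wB_nonneg ha0 ha1) (wB_sum a)
    (fun g : Fin n → Bool => ∑ z ∈ range (t + 1),
      ((if z + R ≤ t then L else M) / ((z + R).choose R : ℝ) +
        (if z < R then 1 else Real.exp (-L)) * (M / ((t - z + R).choose R : ℝ))) *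
      (((trueSet g).card.choose z : ℝ) * ((trueSet g)ᶜ.card.choose (t - z) : ℝ)))
  obtain ⟨F, hF1, hF2⟩ := fixed_part hRt hL h (trueSet g)
  refine ⟨F, hF1, hF2.trans ?_⟩
  have e1 : ∑ z ∈ range (t + 1),
      ((((trueSet g).card.choose z : ℝ) * ((trueSet g)ᶜ.card.choose (t - z) : ℝ)) *
          ((if z + R ≤ t then L else M) / ((z + R).choose R : ℝ)) +
        (((trueSet g).card.choose z : ℝ) * ((trueSet g)ᶜ.card.choose (t - z) : ℝ)) *
          ((if z < R then 1 else Real.exp (-L)) * (M / ((t - z + R).choose R : ℝ)))) =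
      ∑ z ∈ range (t + 1),
      ((if z + R ≤ t then L else M) / ((z + R).choose R : ℝ) +
        (if z < R then 1 else Real.exp (-L)) * (M / ((t - z + R).choose R : ℝ))) *
      (((trueSet g).card.choose z : ℝ) * ((trueSet g)ᶜ.card.choose (t - z) : ℝ)) :=
    sum_congr rfl fun z _ => by ring
  rw [e1]
  refine hg.trans (le_of_eq ?_)
  rw [avg_sum, sum_mul]
  refine sum_congr rfl fun z hz => ?_
  rw [mem_range] at hz
  rw [avg_mul_left, avg_split a (by omega : z ≤ t)]
  ring

end Pool.Agent.T2H86.TU
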