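import Pool.Agent.W724.TG.Pattern

/-!
Random families and random partitions: the averages that are needed for the uniform upper bound of
the Turán numbers.
-/

set_option autoImplicit false
set_option linter.unusedSectionVars false

namespace Pool.Agent.T2H86.TU

open Finset Pool.Agent.H613T Pool.Agent.H123R2 Pool.Agent.W724.TG

section
variable {V : Type} [Fintype V] [DecidableEq V]

/-- the `d`-subsets of `A` without a member of `P` -/
def bad (A : Finset V) (d : ℕ) (P : Finset (Finset V)) : Finset (Finset V) :=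
  (powersetCard d A).filter (fun Y => ∀ Z ∈ P, ¬ Z ⊆ Y)

theorem mem_bad {A : Finset V} {d : ℕ} {P : Finset (Finset V)} {Y : Finset V} :
    Y ∈ bad A d P ↔ (Y ⊆ A ∧ Y.card = d) ∧ ∀ Z ∈ P, ¬ Z ⊆ Y := by
  unfold bad
  rw [mem_filter, mem_powersetCard]

theorem card_bad_le (A : Finset V) (d : ℕ) (P : Finset (Finset V)) :
    (bad A d P).card ≤ A.card.choose d := by
  unfold bad
  exact (card_filter_le _ _).trans (card_powersetCard _ _).le

/-- random families: cost `L`, failure probability `exp (-L)` -/
theorem random_family (A : Finset V) {d R : ℕ} (hR : R ≤ d) {L w β : ℝ} (hL : 0 ≤ L)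
    (hw : 0 ≤ w) (hβ : 0 ≤ β) :
    ∃ P : Finset (Finset V), (∀ Z ∈ P, Z ⊆ A ∧ Z.card = d - R) ∧
      w * ((d.choose R : ℝ) * (P.card : ℝ)) + β * ((bad A d P).card : ℝ) ≤
        w * (L * (A.card.choose (d - R) : ℝ)) +
          β * (Real.exp (-L) * (A.card.choose d : ℝ)) := by
  classical
  set D : ℝ := (d.choose R : ℝ) with hD
  have hD0 : 0 < D := by
    rw [hD]
    exact_mod_cast Nat.choose_pos hR
  set θ : ℝ := min 1 (L / D) with hθ
  have h0 : 0 ≤ θ := le_min zero_le_one (by positivity)
  have h1 : θ ≤ 1 := min_le_left _ _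
  have hθD : D * θ ≤ L := by
    have : θ ≤ L / D := min_le_right _ _
    rwa [le_div_iff₀ hD0, mul_comm] at this
  have hfail : (1 - θ) ^ (d.choose R) ≤ Real.exp (-L) := by
    rcases le_total 1 (L / D) with h | h
    · have : θ = 1 := min_eq_left h
      rw [this, sub_self, zero_pow (by have := Nat.choose_pos hR; omega)]
      exact (Real.exp_pos _).le
    · have h2 : θ = L / D := min_eq_right h
      have h3 : 1 - θ ≤ Real.exp (-θ) := by
        have := Real.add_one_le_exp (-θ)
        linarith
      calc (1 - θ) ^ (d.choose R) ≤ Real.exp (-θ) ^ (d.choose R) :=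
            pow_le_pow_left₀ (by linarith) h3 _
        _ = Real.exp (-L) := by
          rw [← Real.exp_nat_mul]
          congr 1
          rw [h2, ← hD]
          field_simp
  obtain ⟨ξ, hξ⟩ := exists_le_avg (ι := Finset V) (wB θ) (wB_nonneg h0 h1) (wB_sum θ)
    (fun ξ => w * (D * (((powersetCard (d - R) A).filter (fun Z => ξ Z = true)).card : ℝ)) +
      β * ((bad A d ((powersetCard (d - R) A).filter (fun Z => ξ Z = true))).card : ℝ))
  refine ⟨(powersetCard (d - R) A).filter (fun Z => ξ Z = true), ?_, hξ.trans ?_⟩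
  · intro Z hZ
    exact mem_powersetCard.1 (mem_filter.1 hZ).1
  · rw [avg_add, avg_mul_left, avg_mul_left, avg_mul_left]
    refine add_le_add (mul_le_mul_of_nonneg_left ?_ hw) (mul_le_mul_of_nonneg_left ?_ hβ)
    · have e1 : (fun ξ : Finset V → Bool =>
          (((powersetCard (d - R) A).filter (fun Z => ξ Z = true)).card : ℝ)) =
          fun ξ => ∑ Z ∈ powersetCard (d - R) A, (if ξ Z = true then (1 : ℝ) else 0) := by
        ext ξ
        rw [card_filter]
        push_cast
        rfl
      rw [e1, avg_sum, sum_congr rfl fun Z _ => avg_single θ Z, sum_const, card_powersetCard,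
        nsmul_eq_mul]
      calc D * ((A.card.choose (d - R) : ℝ) * θ) = (D * θ) * (A.card.choose (d - R) : ℝ) := by ring
        _ ≤ _ := mul_le_mul_of_nonneg_right hθD (Nat.cast_nonneg _)
    · have e1 : (fun ξ : Finset V → Bool =>
          ((bad A d ((powersetCard (d - R) A).filter (fun Z => ξ Z = true))).card : ℝ)) =
          fun ξ => ∑ Y ∈ powersetCard d A,
            (if ∀ Z ∈ powersetCard (d - R) Y, ξ Z = false then (1 : ℝ) else 0) := by
        ext ξ
        unfold bad
        rw [card_filter]
        push_cast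
        refine sum_congr rfl fun Y hY => ?_
        have hYA := (mem_powersetCard.1 hY).1
        congr 1
        apply propext
        constructor
        · intro h Z hZ
          obtain ⟨h3, h4⟩ := mem_powersetCard.1 hZ
          by_contra hcon
          have h5 : ξ Z = true := by simpa using hcon
          exact h Z (mem_filter.2 ⟨mem_powersetCard.2 ⟨h3.trans hYA, h4⟩, h5⟩) h3
        · intro h Z hZ hZY
          obtain ⟨h3, h4⟩ := mem_filter.1 hZ
          have := h Z (mem_powersetCard.2 ⟨hZY, (mem_powersetCard.1 h3).2⟩)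
          rw [this] at h4
          exact absurd h4 (by simp)
      rw [e1, avg_sum]
      have e2 : ∀ Y ∈ powersetCard d A, avg (wB θ) (fun ξ : Finset V → Bool =>
          if ∀ Z ∈ powersetCard (d - R) Y, ξ Z = false then (1 : ℝ) else 0) ≤ Real.exp (-L) := by
        intro Y hY
        rw [avg_all_false, card_powersetCard, (mem_powersetCard.1 hY).2, Nat.choose_symm hR]
        exact hfail
      refine (sum_le_sum e2).trans (le_of_eq ?_)
      rw [sum_const, card_powersetCard, nsmul_eq_mul, mul_comm]

/-- a full system on `A` from a random family -/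
theorem exists_system (A : Finset V) {t R : ℕ} (hA : t + R ≤ A.card) :
    ∃ F : Finset (Finset V), CovS A R t F ∧ ((t + R).choose R : ℝ) * (F.card : ℝ) ≤
      (1 + Real.log ((A.card - t).choose R : ℝ)) * (A.card.choose t : ℝ) := by
  classical
  have hC : 0 < (A.card - t).choose R := Nat.choose_pos (by omega)
  have hC' : (0 : ℝ) < ((A.card - t).choose R : ℝ) := by exact_mod_cast hC
  have hC1 : (1 : ℝ) ≤ ((A.card - t).choose R : ℝ) := by exact_mod_cast hC
  have hD : (0 : ℝ) < ((t + R).choose R : ℝ) := by
    exact_mod_cast Nat.choose_pos (Nat.le_add_left R t)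
  obtain ⟨P, hP1, hP2⟩ := random_family A (d := t + R) (R := R) (by omega)
    (L := Real.log ((A.card - t).choose R : ℝ)) (w := 1) (β := ((t + R).choose R : ℝ))
    (Real.log_nonneg hC1) zero_le_one hD.le
  rw [Nat.add_sub_cancel] at hP1 hP2
  have hsub : ∀ Y ∈ bad A (t + R) P, ∃ Z ⊆ Y, Z.card = t := fun Y hY =>
    exists_subset_card_eq (by rw [(mem_bad.1 hY).1.2]; omega)
  choose! f hf1 hf2 using hsub
  refine ⟨P ∪ (bad A (t + R) P).image f, ⟨?_, ?_⟩, ?_⟩
  · intro Z hZ
    rcases mem_union.1 hZ with h | h
    · exact hP1 Z h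
    · obtain ⟨Y, hY, rfl⟩ := mem_image.1 h
      exact ⟨(hf1 Y hY).trans (mem_bad.1 hY).1.1, hf2 Y hY⟩
  · intro Y hYA hY
    by_cases hb : Y ∈ bad A (t + R) P
    · exact ⟨f Y, mem_union_right _ (mem_image_of_mem _ hb), hf1 Y hb⟩
    · rw [mem_bad] at hb
      push Not at hb
      obtain ⟨Z, hZ, hZY⟩ := hb ⟨hYA, hY⟩
      exact ⟨Z, mem_union_left _ hZ, hZY⟩
  · have h1 : ((P ∪ (bad A (t + R) P).image f).card : ℝ) ≤
        (P.card : ℝ) + ((bad A (t + R) P).card : ℝ) := by
      exact_mod_cast (card_union_le _ _).trans (Nat.add_le_add_left card_image_le _)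
    have h2 : Real.exp (-Real.log ((A.card - t).choose R : ℝ)) =
        ((A.card - t).choose R : ℝ)⁻¹ := by
      rw [Real.exp_neg, Real.exp_log hC']
    rw [h2, one_mul, one_mul] at hP2
    have h3 : ((A.card.choose (t + R) : ℕ) : ℝ) * ((t + R).choose R : ℝ) =
        (A.card.choose t : ℝ) * ((A.card - t).choose R : ℝ) := by
      have h4 := Nat.choose_mul (n := A.card) (k := t + R) (s := t) (by omega)
      rw [Nat.add_sub_cancel_left] at h4
      have h5 : (t + R).choose t = (t + R).choose R := by rw [Nat.choose_symm_add]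
      rw [h5] at h4
      exact_mod_cast h4
    have h6 : ((t + R).choose R : ℝ) * (((A.card - t).choose R : ℝ)⁻¹ *
        (A.card.choose (t + R) : ℝ)) = (A.card.choose t : ℝ) := by
      field_simp
      rw [mul_comm, h3, mul_comm]
    rw [h6] at hP2
    calc ((t + R).choose R : ℝ) * ((P ∪ (bad A (t + R) P).image f).card : ℝ)
        ≤ ((t + R).choose R : ℝ) * ((P.card : ℝ) + ((bad A (t + R) P).card : ℝ)) :=
          mul_le_mul_of_nonneg_left h1 hD.le
      _ ≤ _ := by linarith

end

end Pool.Agent.T2H86.TU
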