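import Pool.Agent.T2H86.TU.Small

/-!
Part 3: blow-ups.
-/

set_option autoImplicit false
set_option linter.unusedSectionVars false

namespace Pool.Agent.T2H86.TU

open Finset Pool.Agent.H613T Pool.Agent.H123R2 Pool.Agent.W724.TG

section
variable {V : Type} [Fintype V] [DecidableEq V]

/-- the probability that `g` agrees with `f` on `Z` -/
theorem avg_assign {κ : Type} [Fintype κ] [DecidableEq κ] (w : κ → ℝ) (hw : ∑ i, w i = 1)
    (f : V → κ) (Z : Finset V) [∀ g : V → κ, Decidable (∀ v ∈ Z, g v = f v)] :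
    avg w (fun g : V → κ => if ∀ v ∈ Z, g v = f v then (1 : ℝ) else 0) = ∏ v ∈ Z, w (f v) := by
  have h1 : (fun g : V → κ => if ∀ v ∈ Z, g v = f v then (1 : ℝ) else 0) =
      fun g => ∏ v, (if v ∈ Z then (if g v = f v then (1 : ℝ) else 0) else 1) := by
    ext g
    split_ifs with h
    · symm
      apply Finset.prod_eq_one
      intro v _
      split_ifs with h1 h2
      · rfl
      · exact absurd (h v h1) h2
      · rfl
    · push Not at h
      obtain ⟨v, hv, hne⟩ := h
      symm
      apply Finset.prod_eq_zero (Finset.mem_univ v)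
      rw [if_pos hv, if_neg hne]
  rw [h1, avg_prod w (fun v j => if v ∈ Z then (if j = f v then (1 : ℝ) else 0) else 1)]
  have h2 : ∀ v : V, (∑ j, w j * (if v ∈ Z then (if j = f v then (1 : ℝ) else 0) else 1)) =
      if v ∈ Z then w (f v) else 1 := by
    intro v
    by_cases hv : v ∈ Z
    · simp [hv]
    · simp [hv, hw]
  rw [Finset.prod_congr rfl fun v _ => h2 v, Finset.prod_ite_mem]
  simp

end

/-- blow-ups -/
theorem blow {u R S l : ℕ} (hl : 0 < l) {c : ℝ} (hc0 : 0 ≤ c) (hc : TD R (u + 1) c)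
    (hS : l * (u + R) + 1 ≤ u + 1 + S) : TD S (u + 1) (c / (l : ℝ) ^ u) := by
  classical
  intro n
  have hT : ∀ A : Finset (Fin n), ∃ G : Finset (Finset (Fin n)), CovS A R (u + 1) G ∧
      (G.card : ℝ) ≤ c * (A.card.choose (u + 1) : ℝ) := fun A => hc.transport A
  choose G hG1 hG2 using hT
  set fib : (Fin n → Fin l) → Fin l → Finset (Fin n) := fun g i =>
    univ.filter (fun v => g v = i) with hfib
  obtain ⟨g, hg⟩ := exists_le_avg (wU l) (wU_nonneg l) (wU_sum hl)
    (fun g : Fin n → Fin l => ∑ i, ((fib g i).card.choose (u + 1) : ℝ))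
  refine ⟨univ.biUnion (fun i => G (fib g i)), ⟨?_, ?_⟩, ?_⟩
  · intro Z hZ
    obtain ⟨i, _, hi⟩ := mem_biUnion.1 hZ
    exact ⟨subset_univ _, ((hG1 _).1 Z hi).2⟩
  · intro Y _ hY
    -- pigeonhole
    have h1 : ∃ i, u + 1 + R ≤ (Y.filter (fun v => g v = i)).card := by
      by_contra hcon
      push Not at hcon
      have h2 : Y.card = ∑ i : Fin l, (Y.filter (fun v => g v = i)).card :=
        card_eq_sum_card_fiberwise (fun _ _ => mem_coe.2 (mem_univ _))
      have h3 : ∑ i : Fin l, (Y.filter (fun v => g v = i)).card ≤ ∑ _i : Fin l, (u + R) :=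
        sum_le_sum fun i _ => by have := hcon i; omega
      rw [sum_const, card_univ, Fintype.card_fin, smul_eq_mul] at h3
      omega
    obtain ⟨i, hi⟩ := h1
    obtain ⟨X, hX, hXc⟩ := exists_subset_card_eq hi
    obtain ⟨Z, hZ, hZX⟩ := (hG1 (fib g i)).2 X (by
      intro v hv
      rw [hfib]
      simp only [mem_filter, mem_univ, true_and]
      exact (mem_filter.1 (hX hv)).2) hXc
    exact ⟨Z, mem_biUnion.2 ⟨i, mem_univ _, hZ⟩, hZX.trans (hX.trans (filter_subset _ _))⟩
  · have h1 : ((univ.biUnion (fun i => G (fib g i))).card : ℝ) ≤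
        c * ∑ i, ((fib g i).card.choose (u + 1) : ℝ) := by
      calc ((univ.biUnion (fun i => G (fib g i))).card : ℝ)
          ≤ ((∑ i : Fin l, (G (fib g i)).card : ℕ) : ℝ) := by exact_mod_cast card_biUnion_le
        _ = ∑ i : Fin l, ((G (fib g i)).card : ℝ) := by push_cast; rfl
        _ ≤ ∑ i : Fin l, c * ((fib g i).card.choose (u + 1) : ℝ) :=
            sum_le_sum fun i _ => hG2 _
        _ = _ := by rw [mul_sum]
    refine h1.trans ?_
    have h2 : avg (wU l) (fun g : Fin n → Fin l => ∑ i, ((fib g i).card.choose (u + 1) : ℝ)) =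
        (n.choose (u + 1) : ℝ) / (l : ℝ) ^ u := by
      have e1 : (fun g : Fin n → Fin l => ∑ i, ((fib g i).card.choose (u + 1) : ℝ)) =
          fun g => ∑ i : Fin l, ∑ Z ∈ powersetCard (u + 1) (univ : Finset (Fin n)),
            (if ∀ v ∈ Z, g v = (fun _ : Fin n => i) v then (1 : ℝ) else 0) := by
        ext g
        refine sum_congr rfl fun i _ => ?_
        rw [← card_powersetCard, ← sum_filter, sum_const, nsmul_eq_mul, mul_one]
        congr 2
        ext Z
        rw [mem_filter, mem_powersetCard, mem_powersetCard]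
        constructor
        · rintro ⟨h3, h4⟩
          exact ⟨⟨subset_univ _, h4⟩, fun v hv => by simpa [hfib] using h3 hv⟩
        · rintro ⟨⟨_, h4⟩, h5⟩
          exact ⟨fun v hv => by simpa [hfib] using h5 v hv, h4⟩
      rw [e1, avg_sum]
      have e2 : ∀ i ∈ (univ : Finset (Fin l)), avg (wU l) (fun g : Fin n → Fin l =>
          ∑ Z ∈ powersetCard (u + 1) (univ : Finset (Fin n)),
            (if ∀ v ∈ Z, g v = (fun _ : Fin n => i) v then (1 : ℝ) else 0)) =
          (n.choose (u + 1) : ℝ) * (1 / (l : ℝ)) ^ (u + 1) := by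
        intro i _
        rw [avg_sum]
        have e3 : ∀ Z ∈ powersetCard (u + 1) (univ : Finset (Fin n)), avg (wU l)
            (fun g : Fin n → Fin l => if ∀ v ∈ Z, g v = (fun _ : Fin n => i) v then (1 : ℝ) else 0) =
            (1 / (l : ℝ)) ^ (u + 1) := by
          intro Z hZ
          refine (avg_assign (wU l) (wU_sum hl) (fun _ : Fin n => i) Z).trans ?_
          unfold wU
          rw [prod_const, (mem_powersetCard.1 hZ).2]
        rw [sum_congr rfl e3, sum_const, card_powersetCard, card_univ, Fintype.card_fin,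
          nsmul_eq_mul]
      rw [sum_congr rfl e2, sum_const, card_univ, Fintype.card_fin, nsmul_eq_mul]
      have : (l : ℝ) ≠ 0 := by exact_mod_cast hl.ne'
      rw [one_div, inv_pow, pow_succ]
      field_simp
    calc c * ∑ i, ((fib g i).card.choose (u + 1) : ℝ)
        ≤ c * ((n.choose (u + 1) : ℝ) / (l : ℝ) ^ u) := by
          rw [← h2]
          exact mul_le_mul_of_nonneg_left hg hc0
      _ = _ := by ring

end Pool.Agent.T2H86.TU
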