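import Pool.Agent.T2H86.TU.Iter

/-!
Part 3: the bound `40 t log (t + 1) / C(k-1, t-1)` for all `k ≥ 2 t`.
-/

set_option autoImplicit false
set_option linter.unusedSectionVars false

namespace Pool.Agent.T2H86.TU

open Finset Pool.Agent.H613T Pool.Agent.H123R2 Pool.Agent.W724.TG

/-- `KK R t / k ≤ 4 log k + 2` for `k = t + R` -/
theorem KK_div {R t : ℕ} (ht : 2 ≤ t) (hR : 1 ≤ R) :
    KK R t ≤ ((t + R : ℕ) : ℝ) * (4 * Real.log ((t + R : ℕ) : ℝ) + 2) := by
  unfold KK
  have h1 : (2 : ℝ) ≤ t := by exact_mod_cast ht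
  have h2 : (1 : ℝ) ≤ R := by exact_mod_cast hR
  have h3 := Real.log_natCast_nonneg (t + R)
  push_cast at h3 ⊢
  nlinarith

/-- the normalisation -/
theorem choose_norm {R u : ℕ} : ((u + 1 + R : ℕ) : ℝ) * ((u + R).choose u : ℝ) =
    ((u + 1 + R).choose R : ℝ) * ((u + 1 : ℕ) : ℝ) := by
  have h1 := Nat.add_one_mul_choose_eq (u + R) u
  have h2 : (u + 1 + R).choose R = (u + R + 1).choose (u + 1) := by
    rw [show u + R + 1 = (u + 1) + R by ring, ← Nat.choose_symm_add]
  rw [h2, show u + 1 + R = u + R + 1 by ring]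
  exact_mod_cast h1

/-- `C(k-1, t-1)` in a blow-up with `l` classes and `q = k' - 1` -/
theorem choose_blow {u l q m : ℕ} (hl : 0 < l) (hq : (u + 1) ^ 2 ≤ q) (hm : m < l * (q + 1)) :
    (m.choose u : ℝ) ≤ Real.exp 1 * ((l : ℝ) ^ u * (q.choose u : ℝ)) := by
  have hf : (0 : ℝ) < (u.factorial : ℝ) := by exact_mod_cast Nat.factorial_pos u
  have hq1 : u * u + u + 1 ≤ q := by nlinarith
  have h1 : (u.factorial : ℝ) * (m.choose u : ℝ) ≤ ((l : ℝ) * ((q : ℝ) + 1)) ^ u := by
    have h := Nat.descFactorial_le_pow m u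
    rw [Nat.descFactorial_eq_factorial_mul_choose] at h
    have h' : ((u.factorial * m.choose u : ℕ) : ℝ) ≤ ((m ^ u : ℕ) : ℝ) := by exact_mod_cast h
    push_cast at h'
    refine h'.trans (pow_le_pow_left₀ (Nat.cast_nonneg _) ?_ _)
    exact_mod_cast hm.le
  have h2 : ((q + 1 - u : ℕ) : ℝ) ^ u ≤ (u.factorial : ℝ) * (q.choose u : ℝ) := by
    have h := Nat.pow_sub_le_descFactorial q u
    rw [Nat.descFactorial_eq_factorial_mul_choose] at h
    exact_mod_cast h
  have hd : ((q + 1 - u : ℕ) : ℝ) = (q : ℝ) + 1 - u := by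
    rw [Nat.cast_sub (by omega)]
    push_cast
    ring
  have hu2 : (u : ℝ) * u ≤ (q : ℝ) + 1 - u := by
    have : ((u * u + u + 1 : ℕ) : ℝ) ≤ q := by exact_mod_cast hq1
    push_cast at this
    linarith
  have hpos : 0 < (q : ℝ) + 1 - u := by
    have : ((u * u + u + 1 : ℕ) : ℝ) ≤ q := by exact_mod_cast hq1
    push_cast at this
    nlinarith [show (0 : ℝ) ≤ u from Nat.cast_nonneg _]
  have h3 : ((q : ℝ) + 1) ^ u ≤ Real.exp 1 * ((q : ℝ) + 1 - u) ^ u := by
    have e1 : (q : ℝ) + 1 ≤ Real.exp (u / ((q : ℝ) + 1 - u)) * ((q : ℝ) + 1 - u) := by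
      have := Real.add_one_le_exp (u / ((q : ℝ) + 1 - u))
      calc (q : ℝ) + 1 = (u / ((q : ℝ) + 1 - u) + 1) * ((q : ℝ) + 1 - u) := by
            field_simp
            ring
        _ ≤ _ := mul_le_mul_of_nonneg_right this hpos.le
    calc ((q : ℝ) + 1) ^ u ≤ (Real.exp (u / ((q : ℝ) + 1 - u)) * ((q : ℝ) + 1 - u)) ^ u :=
          pow_le_pow_left₀ (by positivity) e1 _
      _ = Real.exp (u * (u / ((q : ℝ) + 1 - u))) * ((q : ℝ) + 1 - u) ^ u := by
          rw [mul_pow, ← Real.exp_nat_mul]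
      _ ≤ _ := by
          refine mul_le_mul_of_nonneg_right ?_ (by positivity)
          apply Real.exp_le_exp.2
          rw [← mul_div_assoc, div_le_one hpos]
          exact hu2
  have h4 : (u.factorial : ℝ) * (m.choose u : ℝ) ≤
      (u.factorial : ℝ) * (Real.exp 1 * ((l : ℝ) ^ u * (q.choose u : ℝ))) := by
    calc (u.factorial : ℝ) * (m.choose u : ℝ) ≤ ((l : ℝ) * ((q : ℝ) + 1)) ^ u := h1
      _ = (l : ℝ) ^ u * ((q : ℝ) + 1) ^ u := mul_pow _ _ _
      _ ≤ (l : ℝ) ^ u * (Real.exp 1 * ((q : ℝ) + 1 - u) ^ u) :=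
          mul_le_mul_of_nonneg_left h3 (by positivity)
      _ ≤ (l : ℝ) ^ u * (Real.exp 1 * ((u.factorial : ℝ) * (q.choose u : ℝ))) := by
          refine mul_le_mul_of_nonneg_left (mul_le_mul_of_nonneg_left ?_ (Real.exp_pos _).le)
            (by positivity)
          rw [← hd]
          exact h2
      _ = _ := by ring
  exact le_of_mul_le_mul_left h4 hf

/-- the bound for large `k` -/
theorem large {u S : ℕ} (hu : 1 ≤ u) (hS : u + 1 ≤ S) :
    TD S (u + 1) (40 * ((u + 1 : ℕ) : ℝ) * Real.log (((u + 1 : ℕ) : ℝ) + 1) /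
      ((u + S).choose u : ℝ)) := by
  set t := u + 1 with ht
  have ht2 : 2 ≤ t := by omega
  have htr : (2 : ℝ) ≤ t := by exact_mod_cast ht2
  have hlt : Real.log t ≤ Real.log ((t : ℝ) + 1) := Real.log_le_log (by linarith) (by linarith)
  have hl1 : 1 ≤ Real.log ((t : ℝ) + 1) := by
    rw [Real.le_log_iff_exp_le (by linarith)]
    have := Real.exp_one_lt_d9
    linarith
  have hlog0 : 0 ≤ Real.log t := Real.log_natCast_nonneg t
  have hC : (0 : ℝ) < ((u + S).choose u : ℝ) := by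
    exact_mod_cast Nat.choose_pos (Nat.le_add_right u S)
  rcases Nat.lt_or_ge (t ^ 2) (t + S) with hk | hk
  · -- blow-up
    set m := u + S with hm
    set l := m / t ^ 2 with hl
    have htt : 0 < t ^ 2 := by positivity
    have hl0 : 0 < l := Nat.div_pos (by omega) htt
    set q := m / l with hq
    have hlq : l * q ≤ m := Nat.mul_div_le m l
    have hml : m < l * (q + 1) := by
      have := Nat.lt_mul_div_succ m hl0
      exact this
    have hlt2 : l * t ^ 2 ≤ m := by
      rw [mul_comm]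
      exact Nat.mul_div_le m (t ^ 2)
    have hqt : t ^ 2 ≤ q := by
      rw [hq, Nat.le_div_iff_mul_le hl0, mul_comm]
      exact hlt2
    have hq2 : q < 2 * t ^ 2 := by
      rw [hq, Nat.div_lt_iff_lt_mul hl0]
      have h1 : m < t ^ 2 * (l + 1) := Nat.lt_mul_div_succ m htt
      calc m < t ^ 2 * (l + 1) := h1
        _ ≤ t ^ 2 * (l + l) := Nat.mul_le_mul_left _ (by omega)
        _ = _ := by ring
    have htq : t ≤ t ^ 2 := by nlinarith
    obtain ⟨R, hR⟩ : ∃ R, u + R = q := ⟨q - u, by omega⟩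
    have hR1 : 1 ≤ R := by omega
    have hb := blow (u := u) (R := R) (S := S) (l := l) hl0
      (c := KK R t / ((t + R).choose R : ℝ))
      (div_nonneg (KK_nonneg R t) (Nat.cast_nonneg _)) (small hR1 t) (by
        rw [hR]
        omega)
    refine hb.mono ?_
    have hqC : (0 : ℝ) < (q.choose u : ℝ) := by
      exact_mod_cast Nat.choose_pos (by omega : u ≤ q)
    have hl0' : (0 : ℝ) < l := by exact_mod_cast hl0
    have hkk : (0 : ℝ) < ((t + R : ℕ) : ℝ) := by exact_mod_cast (by omega : 0 < t + R)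
    have hCR : (0 : ℝ) < ((t + R).choose R : ℝ) := by
      exact_mod_cast Nat.choose_pos (Nat.le_add_left R t)
    have hnorm : ((t + R : ℕ) : ℝ) * (q.choose u : ℝ) = ((t + R).choose R : ℝ) * (t : ℝ) := by
      have := choose_norm (R := R) (u := u)
      rw [← hR]
      exact this
    -- the constant
    have c1 : KK R t / ((t + R).choose R : ℝ) ≤
        (t : ℝ) * (4 * Real.log ((t + R : ℕ) : ℝ) + 2) / (q.choose u : ℝ) := by
      rw [div_le_div_iff₀ hCR hqC]
      calc KK R t * (q.choose u : ℝ)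
          ≤ ((t + R : ℕ) : ℝ) * (4 * Real.log ((t + R : ℕ) : ℝ) + 2) * (q.choose u : ℝ) :=
            mul_le_mul_of_nonneg_right (KK_div ht2 hR1) hqC.le
        _ = (4 * Real.log ((t + R : ℕ) : ℝ) + 2) * (((t + R : ℕ) : ℝ) * (q.choose u : ℝ)) := by
            ring
        _ = _ := by rw [hnorm]; ring
    have c2 : Real.log ((t + R : ℕ) : ℝ) ≤ Real.log 2 + 2 * Real.log t := by
      have e1 : ((t + R : ℕ) : ℝ) ≤ 2 * (t : ℝ) ^ 2 := by
        exact_mod_cast (by omega : t + R ≤ 2 * t ^ 2)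
      refine (Real.log_le_log hkk e1).trans (le_of_eq ?_)
      rw [Real.log_mul (by norm_num) (by positivity), Real.log_pow]
      push_cast
      ring
    have c3 : Real.exp 1 * (4 * Real.log ((t + R : ℕ) : ℝ) + 2) ≤
        40 * Real.log ((t : ℝ) + 1) := by
      have e1 := Real.exp_one_lt_d9
      have e2 := Real.log_two_lt_d9
      have e3 : 4 * Real.log ((t + R : ℕ) : ℝ) + 2 ≤ 8 * Real.log ((t : ℝ) + 1) + 4.8 := by
        linarith
      have e4 : 0 ≤ 4 * Real.log ((t + R : ℕ) : ℝ) + 2 := by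
        have := Real.log_natCast_nonneg (t + R)
        linarith
      calc Real.exp 1 * (4 * Real.log ((t + R : ℕ) : ℝ) + 2)
          ≤ 2.72 * (8 * Real.log ((t : ℝ) + 1) + 4.8) :=
            mul_le_mul (by linarith) e3 e4 (by norm_num)
        _ ≤ _ := by linarith
    have c4 := choose_blow (u := u) (l := l) (q := q) (m := m) hl0 hqt hml
    rw [div_le_div_iff₀ (by positivity) hC]
    calc KK R t / ((t + R).choose R : ℝ) * (m.choose u : ℝ)
        ≤ (t : ℝ) * (4 * Real.log ((t + R : ℕ) : ℝ) + 2) / (q.choose u : ℝ) *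
          (Real.exp 1 * ((l : ℝ) ^ u * (q.choose u : ℝ))) := by
          refine mul_le_mul c1 c4 (Nat.cast_nonneg _) ?_
          have := Real.log_natCast_nonneg (t + R)
          positivity
      _ = (t : ℝ) * (Real.exp 1 * (4 * Real.log ((t + R : ℕ) : ℝ) + 2)) * (l : ℝ) ^ u := by
          field_simp
      _ ≤ (t : ℝ) * (40 * Real.log ((t : ℝ) + 1)) * (l : ℝ) ^ u := by
          refine mul_le_mul_of_nonneg_right (mul_le_mul_of_nonneg_left c3 (by positivity))
            (by positivity)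
      _ = _ := by ring
  · -- `k ≤ t ^ 2`
    have hS1 : 1 ≤ S := by omega
    refine (small hS1 t).mono ?_
    have hCR : (0 : ℝ) < ((t + S).choose S : ℝ) := by
      exact_mod_cast Nat.choose_pos (Nat.le_add_left S t)
    rw [div_le_div_iff₀ hCR hC]
    have hnorm : ((t + S : ℕ) : ℝ) * ((u + S).choose u : ℝ) = ((t + S).choose S : ℝ) * (t : ℝ) :=
      choose_norm (R := S) (u := u)
    have hkk : (0 : ℝ) < ((t + S : ℕ) : ℝ) := by exact_mod_cast (by omega : 0 < t + S)
    have c2 : Real.log ((t + S : ℕ) : ℝ) ≤ 2 * Real.log t := by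
      have e1 : ((t + S : ℕ) : ℝ) ≤ (t : ℝ) ^ 2 := by exact_mod_cast hk
      refine (Real.log_le_log hkk e1).trans (le_of_eq ?_)
      rw [Real.log_pow]
      push_cast
      ring
    calc KK S t * ((u + S).choose u : ℝ)
        ≤ ((t + S : ℕ) : ℝ) * (4 * Real.log ((t + S : ℕ) : ℝ) + 2) * ((u + S).choose u : ℝ) :=
          mul_le_mul_of_nonneg_right (KK_div ht2 hS1) hC.le
      _ = (4 * Real.log ((t + S : ℕ) : ℝ) + 2) * (((t + S : ℕ) : ℝ) * ((u + S).choose u : ℝ)) := by
          ring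
      _ = (4 * Real.log ((t + S : ℕ) : ℝ) + 2) * (((t + S).choose S : ℝ) * (t : ℝ)) := by
          rw [hnorm]
      _ ≤ (40 * Real.log ((t : ℝ) + 1)) * (((t + S).choose S : ℝ) * (t : ℝ)) := by
          refine mul_le_mul_of_nonneg_right ?_ (by positivity)
          linarith
      _ = _ := by ring

end Pool.Agent.T2H86.TU
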