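import Pool.Agent.T2H86.TU.Num

/-!
Part 2: the constant `40 R log (R + 1)` for the gap `R` and every uniformity.
-/

set_option autoImplicit false
set_option linter.unusedSectionVars false

namespace Pool.Agent.T2H86.TU

open Finset Pool.Agent.H613T Pool.Agent.H123R2 Pool.Agent.W724.TG

/-- the constant for the gap `R` -/
noncomputable def LL (R : ℕ) : ℝ := 40 * R * Real.log ((R : ℝ) + 1)

theorem LL_nonneg (R : ℕ) : 0 ≤ LL R := by
  unfold LL
  have : 0 ≤ Real.log ((R : ℝ) + 1) := Real.log_nonneg (by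
    have : (0 : ℝ) ≤ R := Nat.cast_nonneg _
    linarith)
  positivity

theorem KK_le_LL {R t : ℕ} (hR : 1 ≤ R) (ht : t + R < 32 * R ^ 2) : KK R t ≤ LL R := by
  have hR1 : (1 : ℝ) ≤ R := by exact_mod_cast hR
  have h1 : Real.log ((t + R : ℕ) : ℝ) ≤ Real.log (32 * (R : ℝ) ^ 2) := by
    apply Real.log_le_log
    · exact_mod_cast (by omega : 0 < t + R)
    · exact_mod_cast ht.le
  have h2 : Real.log (32 * (R : ℝ) ^ 2) = 5 * Real.log 2 + 2 * Real.log R := by
    rw [Real.log_mul (by norm_num) (by positivity), Real.log_pow,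
      show (32 : ℝ) = 2 ^ 5 by norm_num, Real.log_pow]
    push_cast
    ring
  have h3 : Real.log R ≤ Real.log ((R : ℝ) + 1) := Real.log_le_log (by linarith) (by linarith)
  have h4 : Real.log 2 ≤ Real.log ((R : ℝ) + 1) := Real.log_le_log (by norm_num) (by linarith)
  have h5 := Real.log_two_gt_d9
  unfold KK LL
  have h6 : (R : ℝ) * Real.log ((t + R : ℕ) : ℝ) ≤ R * (7 * Real.log ((R : ℝ) + 1)) := by
    refine mul_le_mul_of_nonneg_left ?_ (by linarith)
    linarith
  have h7 : (R : ℝ) * 1 ≤ R * (2 * Real.log ((R : ℝ) + 1)) :=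
    mul_le_mul_of_nonneg_left (by linarith) (by linarith)
  linarith

section
variable {R : ℕ} (hR : 1 ≤ R)
include hR

theorem num_a : 1 / (1 - 1 / (4 * (R : ℝ))) ^ R ≤ 4 / 3 := by
  have hR1 : (1 : ℝ) ≤ R := by exact_mod_cast hR
  have h0 : 1 / (4 * (R : ℝ)) ≤ 1 := by
    rw [div_le_one (by positivity)]
    linarith
  have h1 := one_add_mul_le_pow (a := -(1 / (4 * (R : ℝ)))) (by linarith) R
  have h2 : (R : ℝ) * -(1 / (4 * (R : ℝ))) = -(1 / 4) := by field_simp
  rw [h2] at h1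
  have h3 : (3 / 4 : ℝ) ≤ (1 - 1 / (4 * (R : ℝ))) ^ R := by
    rw [sub_eq_add_neg]
    linarith
  calc 1 / (1 - 1 / (4 * (R : ℝ))) ^ R ≤ 1 / (3 / 4) := one_div_le_one_div_of_le (by norm_num) h3
    _ = 4 / 3 := by norm_num

theorem num_b {k : ℕ} (hk : 32 * R ^ 2 ≤ k) :
    (2 : ℝ) ^ R * ((1 - 1 / (4 * (R : ℝ))) + 1 / (4 * (R : ℝ)) / 2) ^ k ≤ 3 / 64 := by
  have hR1 : (1 : ℝ) ≤ R := by exact_mod_cast hR
  have h0 : (1 - 1 / (4 * (R : ℝ))) + 1 / (4 * (R : ℝ)) / 2 = 1 - 1 / (8 * (R : ℝ)) := by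
    field_simp
    ring
  have h00 : 1 / (8 * (R : ℝ)) ≤ 1 := by
    rw [div_le_one (by positivity)]
    linarith
  have h1 : 1 - 1 / (8 * (R : ℝ)) ≤ Real.exp (-(1 / (8 * (R : ℝ)))) := by
    have := Real.add_one_le_exp (-(1 / (8 * (R : ℝ))))
    linarith
  have h2 : (1 - 1 / (8 * (R : ℝ))) ^ k ≤ Real.exp (-(4 * R)) := by
    calc (1 - 1 / (8 * (R : ℝ))) ^ k ≤ Real.exp (-(1 / (8 * (R : ℝ)))) ^ k :=
          pow_le_pow_left₀ (by linarith) h1 _
      _ = Real.exp (-(k / (8 * (R : ℝ)))) := by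
          rw [← Real.exp_nat_mul]
          congr 1
          ring
      _ ≤ Real.exp (-(4 * R)) := by
          apply Real.exp_le_exp.2
          rw [neg_le_neg_iff, le_div_iff₀ (by positivity)]
          have : (32 * (R : ℝ) ^ 2) ≤ k := by exact_mod_cast hk
          linarith [show (4 * (R : ℝ)) * (8 * R) = 32 * (R : ℝ) ^ 2 by ring]
  rw [h0]
  have h3 : Real.exp (-(4 * (R : ℝ))) = Real.exp (-4) ^ R := by
    rw [← Real.exp_nat_mul]
    congr 1
    ring
  have h4 : 2 * Real.exp (-4) ≤ 3 / 64 := by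
    have h5 := Real.exp_one_gt_d9
    have h6 : Real.exp 4 = Real.exp 1 ^ 4 := by
      rw [← Real.exp_nat_mul]
      norm_num
    have h7 : (2.7 : ℝ) ^ 4 ≤ Real.exp 1 ^ 4 := pow_le_pow_left₀ (by norm_num) (by linarith) _
    rw [Real.exp_neg, ← div_eq_mul_inv, div_le_iff₀ (Real.exp_pos _), h6]
    norm_num at h7 ⊢
    linarith
  calc (2 : ℝ) ^ R * (1 - 1 / (8 * (R : ℝ))) ^ k ≤ 2 ^ R * Real.exp (-(4 * R)) :=
        mul_le_mul_of_nonneg_left h2 (by positivity)
    _ = (2 * Real.exp (-4)) ^ R := by rw [h3, mul_pow]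
    _ ≤ 2 * Real.exp (-4) := by
        have hpos := Real.exp_pos (-4)
        calc (2 * Real.exp (-4)) ^ R ≤ (2 * Real.exp (-4)) ^ 1 :=
              pow_le_pow_of_le_one (by positivity) (by linarith) hR
          _ = _ := pow_one _
    _ ≤ 3 / 64 := h4

theorem num_c : Real.exp (-(Real.log 8 + R * Real.log (4 * R))) / (1 / (4 * (R : ℝ))) ^ R = 1 / 8 := by
  have hR1 : (1 : ℝ) ≤ R := by exact_mod_cast hR
  have hpos : (0 : ℝ) < 4 * R := by positivity
  rw [Real.exp_neg, Real.exp_add, Real.exp_log (by norm_num), mul_comm (R : ℝ), Real.exp_mul,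
    Real.exp_log hpos, Real.rpow_natCast, one_div, inv_pow]
  have : (4 * (R : ℝ)) ^ R ≠ 0 := by positivity
  field_simp

theorem num_d {k : ℕ} (hk : 32 * R ^ 2 ≤ k) :
    (1 / (4 * (R : ℝ)) * (1 - 1 / (4 * (R : ℝ))) + 1 / (4 * (R : ℝ))) ^ k /
      (1 / (4 * (R : ℝ))) ^ R / (1 / (4 * (R : ℝ))) ^ R ≤ 1 / 16 := by
  have hR1 : (1 : ℝ) ≤ R := by exact_mod_cast hR
  have hb0 : (0 : ℝ) < 1 / (4 * (R : ℝ)) := by positivity
  set b : ℝ := 1 / (4 * (R : ℝ)) with hb
  have hb4 : b ≤ 1 / 4 := by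
    rw [hb]
    exact one_div_le_one_div_of_le (by norm_num) (by linarith)
  have h1 : b * (1 - b) + b ≤ 2 * b := by nlinarith
  have h0 : 0 ≤ b * (1 - b) + b := by nlinarith
  have hkR : 32 * R ≤ k := by nlinarith
  have h2 : (b * (1 - b) + b) ^ k ≤ (2 * b) ^ (32 * R) := by
    calc (b * (1 - b) + b) ^ k ≤ (2 * b) ^ k := pow_le_pow_left₀ h0 h1 _
      _ ≤ (2 * b) ^ (32 * R) := pow_le_pow_of_le_one (by positivity) (by linarith) hkR
  have h3 : (2 * b) ^ (32 * R) ≤ (1 / 16) * (b ^ R * b ^ R) := by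
    have e1 : (2 * b) ^ (32 * R) = ((2 * b) ^ (30 * R) * 4 ^ R) * (b ^ R * b ^ R) := by
      rw [show 32 * R = 30 * R + R + R by ring, pow_add, pow_add, mul_pow 2 b R,
        show (4 : ℝ) ^ R = 2 ^ R * 2 ^ R by rw [← mul_pow]; norm_num]
      ring
    rw [e1]
    refine mul_le_mul_of_nonneg_right ?_ (by positivity)
    calc (2 * b) ^ (30 * R) * 4 ^ R ≤ (1 / 2) ^ (30 * R) * 4 ^ R := by
          refine mul_le_mul_of_nonneg_right ?_ (by positivity)
          exact pow_le_pow_left₀ (by positivity) (by linarith) _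
      _ = ((1 / 2) ^ 28) ^ R := by
          rw [pow_mul, ← mul_pow]
          norm_num
      _ ≤ ((1 / 2) ^ 28) ^ 1 := pow_le_pow_of_le_one (by positivity) (by norm_num) hR
      _ ≤ 1 / 16 := by norm_num
  rw [div_div, div_le_iff₀ (by positivity)]
  exact h2.trans h3

/-- one step -/
theorem step {t : ℕ} {M : ℝ} (hM : 0 ≤ M) (hk : 32 * R ^ 2 ≤ t + R)
    (h : ∀ j ≤ t, TD R j (M / ((j + R).choose R : ℝ))) :
    TD R t (((4 / 3) * (Real.log 8 + R * Real.log (4 * R)) + M / 4) / ((t + R).choose R : ℝ)) := by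
  have hR1 : (1 : ℝ) ≤ R := by exact_mod_cast hR
  have hRt : R ≤ t := by nlinarith
  have hL : 0 ≤ Real.log 8 + R * Real.log (4 * R) := by
    have h1 : 0 ≤ Real.log 8 := Real.log_nonneg (by norm_num)
    have h2 : 0 ≤ Real.log (4 * R) := Real.log_nonneg (by linarith)
    positivity
  have hb0 : (0 : ℝ) < 1 / (4 * (R : ℝ)) := by positivity
  have hb4 : 1 / (4 * (R : ℝ)) ≤ 1 / 4 :=
    one_div_le_one_div_of_le (by norm_num) (by linarith)
  have ha0 : 0 < 1 - 1 / (4 * (R : ℝ)) := by linarith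
  refine (two_part hRt hL hM ha0 hb0 (by ring) h).mono ?_
  have hK : (0 : ℝ) < ((t + R).choose R : ℝ) := by
    exact_mod_cast Nat.choose_pos (Nat.le_add_left R t)
  refine div_le_div_of_nonneg_right ?_ hK.le
  have n1 := num_a hR
  have n2 := num_b hR hk
  have n3 := num_c hR
  have n4 := num_d hR hk
  set L := Real.log 8 + R * Real.log (4 * R) with hLdef
  set b : ℝ := 1 / (4 * (R : ℝ)) with hb
  have ha : 0 < (1 - b) ^ R := by positivity
  have e1 : (L + M * (2 ^ R * (1 - b + b / 2) ^ (t + R))) / (1 - b) ^ R ≤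
      (4 / 3) * (L + M * (3 / 64)) := by
    calc (L + M * (2 ^ R * (1 - b + b / 2) ^ (t + R))) / (1 - b) ^ R
        = (1 / (1 - b) ^ R) * (L + M * (2 ^ R * (1 - b + b / 2) ^ (t + R))) := by ring
      _ ≤ (4 / 3) * (L + M * (3 / 64)) := by
          refine mul_le_mul n1 ?_ (by positivity) (by norm_num)
          have := mul_le_mul_of_nonneg_left n2 hM
          linarith
  have e2 : M * (Real.exp (-L) + (b * (1 - b) + b) ^ (t + R) / b ^ R) / b ^ R ≤
      M * (1 / 8 + 1 / 16) := by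
    have : M * (Real.exp (-L) + (b * (1 - b) + b) ^ (t + R) / b ^ R) / b ^ R =
        M * (Real.exp (-L) / b ^ R + (b * (1 - b) + b) ^ (t + R) / b ^ R / b ^ R) := by ring
    rw [this, n3]
    exact mul_le_mul_of_nonneg_left (by linarith) hM
  linarith

theorem log_bound : (4 / 3) * (Real.log 8 + R * Real.log (4 * R)) ≤ (3 / 4) * LL R := by
  have hR1 : (1 : ℝ) ≤ R := by exact_mod_cast hR
  unfold LL
  have h4 : Real.log 2 ≤ Real.log ((R : ℝ) + 1) := Real.log_le_log (by norm_num) (by linarith)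
  have h5 := Real.log_two_gt_d9
  have h3 : Real.log R ≤ Real.log ((R : ℝ) + 1) := Real.log_le_log (by linarith) (by linarith)
  have e1 : Real.log 8 = 3 * Real.log 2 := by
    rw [show (8 : ℝ) = 2 ^ 3 by norm_num, Real.log_pow]
    push_cast
    ring
  have e2 : Real.log (4 * R) = 2 * Real.log 2 + Real.log R := by
    rw [Real.log_mul (by norm_num) (by positivity), show (4 : ℝ) = 2 ^ 2 by norm_num, Real.log_pow]
    push_cast
    ring
  have h6 : Real.log 8 ≤ R * (3 * Real.log ((R : ℝ) + 1)) := by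
    rw [e1]
    have : 0 ≤ Real.log ((R : ℝ) + 1) := by linarith
    nlinarith
  have h7 : (R : ℝ) * Real.log (4 * R) ≤ R * (3 * Real.log ((R : ℝ) + 1)) := by
    refine mul_le_mul_of_nonneg_left ?_ (by linarith)
    rw [e2]
    linarith
  have h8 : 0 ≤ (R : ℝ) * Real.log ((R : ℝ) + 1) := by
    have : 0 ≤ Real.log ((R : ℝ) + 1) := by linarith
    positivity
  nlinarith

/-- halving the excess -/
theorem halve {D : ℕ} {x : ℝ} (hx : 0 ≤ x)
    (h : ∀ t ≤ D, TD R t ((LL R + x) / ((t + R).choose R : ℝ))) :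
    ∀ t ≤ D, TD R t ((LL R + x / 2) / ((t + R).choose R : ℝ)) := by
  intro t ht
  have hK : (0 : ℝ) < ((t + R).choose R : ℝ) := by
    exact_mod_cast Nat.choose_pos (Nat.le_add_left R t)
  have hLL := LL_nonneg R
  rcases Nat.lt_or_ge (t + R) (32 * R ^ 2) with hlt | hge
  · refine (small hR t).mono (div_le_div_of_nonneg_right ?_ hK.le)
    have := KK_le_LL hR hlt
    linarith
  · refine (step hR (M := LL R + x) (by linarith) hge fun j hj => h j (hj.trans ht)).mono
      (div_le_div_of_nonneg_right ?_ hK.le)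
    have := log_bound hR
    linarith

theorem iter (D m : ℕ) :
    ∀ t ≤ D, TD R t ((LL R + ((D + R).choose R : ℝ) / 2 ^ m) / ((t + R).choose R : ℝ)) := by
  induction m with
  | zero =>
    intro t ht
    refine (TD.trivial R t).mono ?_
    have hK : (0 : ℝ) < ((t + R).choose R : ℝ) := by
      exact_mod_cast Nat.choose_pos (Nat.le_add_left R t)
    rw [le_div_iff₀ hK, pow_zero, div_one, one_mul]
    have h1 : ((t + R).choose R : ℝ) ≤ ((D + R).choose R : ℝ) := by
      exact_mod_cast Nat.choose_le_choose R (by omega)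
    have := LL_nonneg R
    linarith
  | succ m ih =>
    have h := halve hR (by positivity) ih
    intro t ht
    have := h t ht
    rw [div_div, ← pow_succ] at this
    exact this

/-- the constant `40 R log (R + 1)` for the gap `R` -/
theorem main (t n : ℕ) (m₀ : ℕ) (hm : ∀ F : Finset (Finset (Fin n)), CovS univ R t F → m₀ ≤ F.card) :
    (m₀ : ℝ) ≤ LL R / ((t + R).choose R : ℝ) * (n.choose t : ℝ) := by
  have hK : (0 : ℝ) < ((t + R).choose R : ℝ) := by
    exact_mod_cast Nat.choose_pos (Nat.le_add_left R t)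
  have h1 : ∀ m : ℕ, (m₀ : ℝ) ≤ (LL R + ((t + R).choose R : ℝ) / 2 ^ m) /
      ((t + R).choose R : ℝ) * (n.choose t : ℝ) := by
    intro m
    obtain ⟨F, hF1, hF2⟩ := iter hR t m t le_rfl n
    have : (m₀ : ℝ) ≤ (F.card : ℝ) := by exact_mod_cast hm F hF1
    exact this.trans hF2
  have h2 : Filter.Tendsto (fun m : ℕ => (LL R + ((t + R).choose R : ℝ) / 2 ^ m) /
      ((t + R).choose R : ℝ) * (n.choose t : ℝ)) Filter.atTop
      (nhds ((LL R + 0) / ((t + R).choose R : ℝ) * (n.choose t : ℝ))) := by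
    refine Filter.Tendsto.mul_const _ (Filter.Tendsto.div_const ?_ _)
    refine Filter.Tendsto.const_add _ ?_
    have h3 := (tendsto_pow_atTop_nhds_zero_of_lt_one (r := (1 / 2 : ℝ)) (by norm_num)
      (by norm_num)).const_mul ((t + R).choose R : ℝ)
    rw [mul_zero] at h3
    refine h3.congr fun m => ?_
    rw [div_pow, one_pow]
    ring
  rw [add_zero] at h2
  exact ge_of_tendsto' h2 h1

end

end Pool.Agent.T2H86.TU
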