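import Pool.Agent.T2H86.TU.Avg2

/-!
Part 2: the estimates and the iteration.
-/

set_option autoImplicit false
set_option linter.unusedSectionVars false

namespace Pool.Agent.T2H86.TU

open Finset Pool.Agent.H613T Pool.Agent.H123R2 Pool.Agent.W724.TG

/-- a part of the binomial sum -/
theorem binom_part (x y : ℝ) (hx : 0 ≤ x) (hy : 0 ≤ y) (k m : ℕ) (hm : m ≤ k + 1) :
    ∑ z ∈ range m, (k.choose z : ℝ) * (x ^ z * y ^ (k - z)) ≤ (x + y) ^ k := by
  rw [add_pow]
  refine (sum_le_sum_of_subset_of_nonneg (range_mono hm) fun z _ _ => by positivity).trans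
    (le_of_eq ?_)
  exact sum_congr rfl fun z _ => by ring

/-- the shifted part of the binomial sum -/
theorem binom_shift (x y : ℝ) (hx : 0 ≤ x) (hy : 0 ≤ y) (t R : ℕ) :
    ∑ z ∈ range (t + 1), ((t + R).choose (z + R) : ℝ) * (x ^ (z + R) * y ^ (t - z)) ≤
      (x + y) ^ (t + R) := by
  rw [add_pow]
  have h1 : ∑ z ∈ range (t + 1), ((t + R).choose (z + R) : ℝ) * (x ^ (z + R) * y ^ (t - z)) =
      ∑ z ∈ range (t + 1), x ^ (R + z) * y ^ (t + R - (R + z)) * ((t + R).choose (R + z) : ℝ) := by
    refine sum_congr rfl fun z hz => ?_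
    rw [mem_range] at hz
    rw [Nat.add_comm z R, show t + R - (R + z) = t - z by omega]
    ring
  have h3 := sum_range_add (fun m => x ^ m * y ^ (t + R - m) * ((t + R).choose m : ℝ)) R (t + 1)
  rw [h1, show t + R + 1 = R + (t + 1) by omega, h3]
  have h2 : 0 ≤ ∑ x_1 ∈ range R, x ^ x_1 * y ^ (t + R - x_1) * ((t + R).choose x_1 : ℝ) :=
    sum_nonneg fun z _ => by positivity
  linarith

theorem choose_id1 {t R z : ℕ} : ((t + R).choose (z + R) : ℝ) * ((z + R).choose R : ℝ) =
    ((t + R).choose R : ℝ) * (t.choose z : ℝ) := by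
  have h := Nat.choose_mul (n := t + R) (k := z + R) (s := R) (by omega)
  rw [Nat.add_sub_cancel, Nat.add_sub_cancel] at h
  exact_mod_cast h

theorem choose_id2 {t R z : ℕ} (hz : z ≤ t) :
    ((t + R).choose z : ℝ) * ((t - z + R).choose R : ℝ) =
    ((t + R).choose R : ℝ) * (t.choose z : ℝ) := by
  have h := Nat.choose_mul (n := t + R) (k := z + R) (s := z) (by omega)
  have h' := Nat.choose_mul (n := t + R) (k := z + R) (s := R) (by omega)
  rw [Nat.add_sub_cancel, Nat.add_sub_cancel] at h'
  rw [Nat.add_sub_cancel_left, show t + R - z = t - z + R by omega] at h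
  have h3 : (z + R).choose z = (z + R).choose R := Nat.choose_symm_add
  rw [h3] at h
  exact_mod_cast h.symm.trans h'

/-- the recursion over a random partition into two parts -/
theorem two_part {R t : ℕ} (hRt : R ≤ t) {L M a b : ℝ} (hL : 0 ≤ L) (hM : 0 ≤ M)
    (ha : 0 < a) (hb : 0 < b) (hab : a + b = 1)
    (h : ∀ j ≤ t, TD R j (M / ((j + R).choose R : ℝ))) :
    TD R t (((L + M * (2 ^ R * (a + b / 2) ^ (t + R))) / a ^ R +
      M * (Real.exp (-L) + (b * a + b) ^ (t + R) / b ^ R) / b ^ R) / ((t + R).choose R : ℝ)) := by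
  have hb1 : b = 1 - a := by linarith
  refine (two_part_raw hRt hL ha.le (by linarith) h).mono ?_
  rw [← hb1]
  have hK : (0 : ℝ) < ((t + R).choose R : ℝ) := by
    exact_mod_cast Nat.choose_pos (Nat.le_add_left R t)
  rw [le_div_iff₀ hK, sum_mul]
  have hterm : ∀ z ∈ range (t + 1), ((t.choose z : ℝ) * (a ^ z * b ^ (t - z))) *
      ((if z + R ≤ t then L else M) / ((z + R).choose R : ℝ) +
        (if z < R then 1 else Real.exp (-L)) * (M / ((t - z + R).choose R : ℝ))) *
      ((t + R).choose R : ℝ) =
      (if z + R ≤ t then L else M) * (((t + R).choose (z + R) : ℝ) * (a ^ (z + R) * b ^ (t - z))) /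
        a ^ R +
      M * ((if z < R then 1 else Real.exp (-L)) *
        (((t + R).choose z : ℝ) * (a ^ z * b ^ (t + R - z)))) / b ^ R := by
    intro z hz
    rw [mem_range] at hz
    have hz' : z ≤ t := by omega
    have p1 : (0 : ℝ) < ((z + R).choose R : ℝ) := by
      exact_mod_cast Nat.choose_pos (Nat.le_add_left R z)
    have p2 : (0 : ℝ) < ((t - z + R).choose R : ℝ) := by
      exact_mod_cast Nat.choose_pos (Nat.le_add_left R (t - z))
    have q1 : ((t + R).choose R : ℝ) * (t.choose z : ℝ) / ((z + R).choose R : ℝ) =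
        ((t + R).choose (z + R) : ℝ) := by
      rw [← choose_id1, mul_div_assoc, div_self p1.ne', mul_one]
    have q2 : ((t + R).choose R : ℝ) * (t.choose z : ℝ) / ((t - z + R).choose R : ℝ) =
        ((t + R).choose z : ℝ) := by
      rw [← choose_id2 hz', mul_div_assoc, div_self p2.ne', mul_one]
    have r1 : a ^ (z + R) / a ^ R = a ^ z := by
      rw [pow_add]
      field_simp
    have r2 : b ^ (t + R - z) / b ^ R = b ^ (t - z) := by
      rw [show t + R - z = t - z + R by omega, pow_add]
      field_simp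
    rw [← q1, ← q2]
    calc ((t.choose z : ℝ) * (a ^ z * b ^ (t - z))) *
        ((if z + R ≤ t then L else M) / ((z + R).choose R : ℝ) +
          (if z < R then 1 else Real.exp (-L)) * (M / ((t - z + R).choose R : ℝ))) *
        ((t + R).choose R : ℝ)
        = (if z + R ≤ t then L else M) *
          (((t + R).choose R : ℝ) * (t.choose z : ℝ) / ((z + R).choose R : ℝ) *
            (a ^ z * b ^ (t - z))) +
          M * ((if z < R then 1 else Real.exp (-L)) *
          (((t + R).choose R : ℝ) * (t.choose z : ℝ) / ((t - z + R).choose R : ℝ) *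
            (a ^ z * b ^ (t - z)))) := by ring
      _ = (if z + R ≤ t then L else M) *
          (((t + R).choose R : ℝ) * (t.choose z : ℝ) / ((z + R).choose R : ℝ) *
            (a ^ (z + R) / a ^ R * b ^ (t - z))) +
          M * ((if z < R then 1 else Real.exp (-L)) *
          (((t + R).choose R : ℝ) * (t.choose z : ℝ) / ((t - z + R).choose R : ℝ) *
            (a ^ z * (b ^ (t + R - z) / b ^ R)))) := by rw [r1, r2]
      _ = _ := by ring
  rw [sum_congr rfl hterm, sum_add_distrib, ← sum_div, ← sum_div, ← mul_sum]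
  have haR : 0 < a ^ R := by positivity
  have hbR : 0 < b ^ R := by positivity
  refine add_le_add (div_le_div_of_nonneg_right ?_ haR.le) (div_le_div_of_nonneg_right
    (mul_le_mul_of_nonneg_left ?_ hM) hbR.le)
  · -- the first sum
    have h1 : ∀ z ∈ range (t + 1), (if z + R ≤ t then L else M) *
        (((t + R).choose (z + R) : ℝ) * (a ^ (z + R) * b ^ (t - z))) ≤
        L * (((t + R).choose (z + R) : ℝ) * (a ^ (z + R) * b ^ (t - z))) +
        M * (2 ^ R * (((t + R).choose (z + R) : ℝ) * (a ^ (z + R) * (b / 2) ^ (t - z)))) := by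
      intro z hz
      rw [mem_range] at hz
      split_ifs with h2
      · have : 0 ≤ M * (2 ^ R * (((t + R).choose (z + R) : ℝ) * (a ^ (z + R) * (b / 2) ^ (t - z)))) := by
          positivity
        linarith
      · have h3 : (1 : ℝ) ≤ 2 ^ R * (1 / 2) ^ (t - z) := by
          have h4 : (2 : ℝ) ^ R * (1 / 2) ^ (t - z) = 2 ^ (R - (t - z)) := by
            have h5 : R = (R - (t - z)) + (t - z) := by omega
            conv_lhs => rw [h5]
            rw [pow_add, mul_assoc, ← mul_pow]
            norm_num
          rw [h4]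
          exact one_le_pow₀ (by norm_num)
        have h6 : 0 ≤ L * (((t + R).choose (z + R) : ℝ) * (a ^ (z + R) * b ^ (t - z))) := by
          positivity
        have h7 : ((t + R).choose (z + R) : ℝ) * (a ^ (z + R) * b ^ (t - z)) ≤
            2 ^ R * (((t + R).choose (z + R) : ℝ) * (a ^ (z + R) * (b / 2) ^ (t - z))) := by
          have h8 : 2 ^ R * (((t + R).choose (z + R) : ℝ) * (a ^ (z + R) * (b / 2) ^ (t - z))) =
              (2 ^ R * (1 / 2) ^ (t - z)) *
                (((t + R).choose (z + R) : ℝ) * (a ^ (z + R) * b ^ (t - z))) := by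
            rw [div_pow, div_pow, one_pow]
            ring
          rw [h8]
          have h9 : 0 ≤ ((t + R).choose (z + R) : ℝ) * (a ^ (z + R) * b ^ (t - z)) := by positivity
          nlinarith
        have h10 := mul_le_mul_of_nonneg_left h7 hM
        linarith
    refine (sum_le_sum h1).trans ?_
    rw [sum_add_distrib, ← mul_sum, ← mul_sum, ← mul_sum]
    have h2 := binom_shift a b ha.le hb.le t R
    have h3 := binom_shift a (b / 2) ha.le (by positivity) t R
    rw [hab, one_pow] at h2
    have h4 := mul_le_mul_of_nonneg_left h2 hL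
    have h5 : M * (2 ^ R * ∑ z ∈ range (t + 1), ((t + R).choose (z + R) : ℝ) *
        (a ^ (z + R) * (b / 2) ^ (t - z))) ≤ M * (2 ^ R * (a + b / 2) ^ (t + R)) := by
      gcongr
    linarith
  · -- the second sum
    have hmono : ∀ z ∈ range (t + 1), (if z < R then 1 else Real.exp (-L)) *
        (((t + R).choose z : ℝ) * (a ^ z * b ^ (t + R - z))) ≤
        Real.exp (-L) * (((t + R).choose z : ℝ) * (a ^ z * b ^ (t + R - z))) +
        (((t + R).choose z : ℝ) * ((b * a) ^ z * b ^ (t + R - z))) / b ^ R := by
      intro z hz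
      have hT : 0 ≤ ((t + R).choose z : ℝ) * (a ^ z * b ^ (t + R - z)) := by positivity
      have hE := Real.exp_pos (-L)
      split_ifs with h2
      · have h3 : ((t + R).choose z : ℝ) * (a ^ z * b ^ (t + R - z)) ≤
            (((t + R).choose z : ℝ) * ((b * a) ^ z * b ^ (t + R - z))) / b ^ R := by
          rw [le_div_iff₀ hbR, mul_pow]
          have h4 : b ^ R ≤ b ^ z := pow_le_pow_of_le_one hb.le (by linarith) (by omega)
          calc ((t + R).choose z : ℝ) * (a ^ z * b ^ (t + R - z)) * b ^ R
              ≤ ((t + R).choose z : ℝ) * (a ^ z * b ^ (t + R - z)) * b ^ z :=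
                mul_le_mul_of_nonneg_left h4 hT
            _ = _ := by ring
        nlinarith
      · have : 0 ≤ (((t + R).choose z : ℝ) * ((b * a) ^ z * b ^ (t + R - z))) / b ^ R := by
          positivity
        linarith
    refine (sum_le_sum hmono).trans ?_
    rw [sum_add_distrib, ← mul_sum, ← sum_div]
    have h2 := binom_part a b ha.le hb.le (t + R) (t + 1) (by omega)
    have h3 := binom_part (b * a) b (by positivity) hb.le (t + R) (t + 1) (by omega)
    rw [hab, one_pow] at h2
    have h4 := mul_le_mul_of_nonneg_left h2 (Real.exp_pos (-L)).le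
    have h5 := div_le_div_of_nonneg_right h3 hbR.le
    linarith

end Pool.Agent.T2H86.TU
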