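import Pool.Agent.T2H86.TU.Basic

/-!
Part 1: random colourings with `N` colours.  A `k`-set with distinct colours contains a `t`-set
whose colours form a member of a finite system, every other `k`-set contains two points of the same
colour and a member of a `(k-2, t-2)`-system disjoint from them.
-/

set_option autoImplicit false
set_option linter.unusedSectionVars false

namespace Pool.Agent.T2H86.TU

open Finset Pool.Agent.H613T Pool.Agent.H123R2 Pool.Agent.W724.TG

section
variable {V : Type} [Fintype V] [DecidableEq V]

/-- uniform weights -/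
noncomputable def wU (N : ℕ) : Fin N → ℝ := fun _ => 1 / (N : ℝ)

theorem wU_nonneg (N : ℕ) : ∀ i, 0 ≤ wU N i := fun _ => by unfold wU; positivity

theorem wU_sum {N : ℕ} (hN : 0 < N) : ∑ i, wU N i = 1 := by
  unfold wU
  rw [sum_const, card_univ, Fintype.card_fin, nsmul_eq_mul]
  have : (N : ℝ) ≠ 0 := by exact_mod_cast hN.ne'
  field_simp

/-- the probability that the colours of `Z` form the set `B` -/
theorem avg_image {N : ℕ} (hN : 0 < N) (Z : Finset V) : ∀ B : Finset (Fin N), B.card = Z.card →
    avg (wU N) (fun g : V → Fin N => if Z.image g = B then (1 : ℝ) else 0) =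
      (Z.card.factorial : ℝ) / (N : ℝ) ^ Z.card := by
  induction Z using Finset.induction_on with
  | empty =>
    intro B hB
    rw [card_empty, card_eq_zero] at hB
    subst hB
    have : (fun g : V → Fin N => if (∅ : Finset V).image g = ∅ then (1 : ℝ) else 0) =
        fun _ => 1 := by
      ext g
      simp
    rw [this, avg_one _ (wU_sum hN)]
    simp
  | insert v Z hv ih =>
    intro B hB
    rw [card_insert_of_notMem hv] at hB
    have h1 : (fun g : V → Fin N => if (insert v Z).image g = B then (1 : ℝ) else 0) =
        fun g => ∑ b ∈ B, (if g v = b then (1 : ℝ) else 0) *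
          (if Z.image g = B.erase b then (1 : ℝ) else 0) := by
      ext g
      by_cases hB' : (insert v Z).image g = B
      · rw [if_pos hB']
        have hgv : g v ∈ B := by
          rw [← hB']
          exact mem_image_of_mem _ (mem_insert_self _ _)
        have hinj : Set.InjOn g (insert v Z : Finset V) := by
          apply Finset.card_image_iff.1
          rw [hB', hB, card_insert_of_notMem hv]
        rw [sum_eq_single (g v)]
        · rw [if_pos rfl, one_mul, if_pos]
          rw [← hB', image_insert, erase_insert]
          intro hcon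
          obtain ⟨u, hu, huv⟩ := mem_image.1 hcon
          have : u = v := hinj (mem_coe.2 (mem_insert_of_mem hu))
            (mem_coe.2 (mem_insert_self _ _)) huv
          exact hv (this ▸ hu)
        · intro b _ hb
          rw [if_neg (Ne.symm hb), zero_mul]
        · intro h
          exact absurd hgv h
      · rw [if_neg hB']
        symm
        apply sum_eq_zero
        intro b hb
        by_cases h2 : g v = b
        · rw [if_pos h2, one_mul, if_neg]
          intro h3
          apply hB'
          rw [image_insert, h3, h2, insert_erase hb]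
        · rw [if_neg h2, zero_mul]
    rw [h1, avg_sum]
    have h2 : ∀ b ∈ B, avg (wU N) (fun g : V → Fin N => (if g v = b then (1 : ℝ) else 0) *
        (if Z.image g = B.erase b then (1 : ℝ) else 0)) =
        1 / (N : ℝ) * ((Z.card.factorial : ℝ) / (N : ℝ) ^ Z.card) := by
      intro b hb
      rw [avg_coord (wU N) (wU_sum hN) v b, ih _ (by rw [card_erase_of_mem hb, hB]; rfl)]
      · rfl
      · intro g j
        congr 2
        apply image_congr
        intro u hu
        have : u ≠ v := fun h => hv (h ▸ hu)
        rw [Function.update_of_ne this]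
    rw [sum_congr rfl h2, sum_const, nsmul_eq_mul, hB, card_insert_of_notMem hv,
      Nat.factorial_succ, pow_succ]
    push_cast
    field_simp

/-- the probability that two points have the same colour -/
theorem avg_pair {N : ℕ} (hN : 0 < N) {e : Finset V} (he : e.card = 2) :
    avg (wU N) (fun g : V → Fin N => if (e.image g).card = 1 then (1 : ℝ) else 0) = 1 / (N : ℝ) := by
  obtain ⟨x, y, hxy, rfl⟩ := card_eq_two.1 he
  have h1 : (fun g : V → Fin N => if (({x, y} : Finset V).image g).card = 1 then (1 : ℝ) else 0) =
      fun g => ∑ i : Fin N, (if g x = i then (1 : ℝ) else 0) * (if g y = i then (1 : ℝ) else 0) := by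
    ext g
    rw [sum_eq_single (g x)]
    · rw [if_pos rfl, one_mul]
      congr 1
      rw [image_insert, image_singleton]
      apply propext
      constructor
      · intro h
        rw [card_eq_one] at h
        obtain ⟨a, ha⟩ := h
        have h1 : g x ∈ ({a} : Finset (Fin N)) := by rw [← ha]; simp
        have h2 : g y ∈ ({a} : Finset (Fin N)) := by rw [← ha]; simp
        rw [mem_singleton] at h1 h2
        rw [h1, h2]
      · intro h
        rw [h]
        simp
    · intro i _ hi
      rw [if_neg (Ne.symm hi), zero_mul]
    · intro h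
      exact absurd (mem_univ _) h
  rw [h1, avg_sum]
  have h2 : ∀ i ∈ (univ : Finset (Fin N)), avg (wU N) (fun g : V → Fin N =>
      (if g x = i then (1 : ℝ) else 0) * (if g y = i then (1 : ℝ) else 0)) =
      1 / (N : ℝ) * (1 / (N : ℝ)) := by
    intro i _
    rw [avg_coord (wU N) (wU_sum hN) x i]
    · have h3 : (fun g : V → Fin N => (if g y = i then (1 : ℝ) else 0)) =
          fun g => (if g y = i then (1 : ℝ) else 0) * (fun _ : V → Fin N => (1 : ℝ)) g := by
        ext g
        simp
      rw [h3, avg_coord (wU N) (wU_sum hN) y i _ (fun _ _ => rfl), avg_one _ (wU_sum hN), mul_one]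
      rfl
    · intro g j
      rw [Function.update_of_ne (Ne.symm hxy)]
  rw [sum_congr rfl h2, sum_const, card_univ, Fintype.card_fin, nsmul_eq_mul]
  have : (N : ℝ) ≠ 0 := by exact_mod_cast hN.ne'
  field_simp

end

/-- the recursion with a random colouring -/
theorem rainbow {R u N : ℕ} (hN : 0 < N) {c : ℝ} (hc : TD R u c)
    {Q : Finset (Finset (Fin N))} (hQ : CovS univ R (u + 2) Q) :
    TD R (u + 2) (((u + 2).factorial : ℝ) * (Q.card : ℝ) / (N : ℝ) ^ (u + 2) +
      c * ((u + 2).choose 2 : ℝ) / N) := by
  classical
  intro n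
  obtain ⟨F, ⟨hF1, hF2⟩, hF3⟩ := hc n
  set F1 : (Fin n → Fin N) → Finset (Finset (Fin n)) := fun g =>
    (powersetCard (u + 2) (univ : Finset (Fin n))).filter (fun Z => Z.image g ∈ Q) with hF1def
  set F2 : (Fin n → Fin N) → Finset (Σ _ : Finset (Fin n), Finset (Fin n)) := fun g =>
    (F.sigma (fun Z => powersetCard 2 (Zᶜ))).filter
      (fun p => (p.2.image g).card = 1) with hF2def
  obtain ⟨g, hg⟩ := exists_le_avg (wU N) (wU_nonneg N) (wU_sum hN)
    (fun g : Fin n → Fin N => ((F1 g).card : ℝ) + ((F2 g).card : ℝ))
  refine ⟨F1 g ∪ (F2 g).image (fun p => p.1 ∪ p.2), ⟨?_, ?_⟩, ?_⟩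
  · intro Z hZ
    refine ⟨subset_univ _, ?_⟩
    rcases mem_union.1 hZ with h | h
    · exact (mem_powersetCard.1 (mem_filter.1 h).1).2
    · obtain ⟨⟨Z', e⟩, hp, rfl⟩ := mem_image.1 h
      obtain ⟨hp1, hp2⟩ := mem_filter.1 hp
      rw [mem_sigma] at hp1
      obtain ⟨h1, h2⟩ := hp1
      rw [mem_powersetCard] at h2
      simp only at h2 ⊢
      rw [card_union_of_disjoint, (hF1 _ h1).2, h2.2]
      rw [Finset.disjoint_left]
      intro v hv hv'
      exact (mem_compl.1 (h2.1 hv')) hv
  · intro Y _ hY
    by_cases hinj : Set.InjOn g (Y : Set (Fin n))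
    · obtain ⟨B, hB, hBY⟩ := hQ.2 (Y.image g) (subset_univ _) (by
        rw [card_image_of_injOn hinj, hY])
      refine ⟨Y.filter (fun v => g v ∈ B), ?_, filter_subset _ _⟩
      have h1 : (Y.filter (fun v => g v ∈ B)).image g = B := by
        ext b
        rw [mem_image]
        constructor
        · rintro ⟨v, hv, rfl⟩
          exact (mem_filter.1 hv).2
        · intro hb
          obtain ⟨v, hv, rfl⟩ := mem_image.1 (hBY hb)
          exact ⟨v, mem_filter.2 ⟨hv, hb⟩, rfl⟩
      apply mem_union_left
      rw [hF1def]
      simp only [mem_filter, mem_powersetCard]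
      refine ⟨⟨subset_univ _, ?_⟩, by rw [h1]; exact hB⟩
      have h2 : (Y.filter (fun v => g v ∈ B)).card = B.card := by
        conv_rhs => rw [← h1]
        rw [card_image_of_injOn]
        intro x hx y hy hxy
        exact hinj (filter_subset _ _ (mem_coe.1 hx)) (filter_subset _ _ (mem_coe.1 hy)) hxy
      rw [h2, (hQ.1 B hB).2]
    · unfold Set.InjOn at hinj
      push Not at hinj
      obtain ⟨x, hx, y, hy, hxy, hne⟩ := hinj
      have hx' : x ∈ Y := mem_coe.1 hx
      have hy' : y ∈ Y := mem_coe.1 hy
      obtain ⟨Z, hZ, hZY⟩ := hF2 (Y \ {x, y}) (subset_univ _) (by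
        rw [card_sdiff_of_subset (by
          intro v hv
          rw [mem_insert, mem_singleton] at hv
          rcases hv with rfl | rfl
          · exact hx'
          · exact hy'), hY, card_pair hne]
        omega)
      refine ⟨Z ∪ {x, y}, ?_, ?_⟩
      · apply mem_union_right
        rw [mem_image]
        refine ⟨⟨Z, {x, y}⟩, ?_, rfl⟩
        rw [hF2def]
        simp only [mem_filter]
        refine ⟨?_, ?_⟩
        · rw [mem_sigma, mem_powersetCard]
          refine ⟨hZ, ?_, card_pair hne⟩
          intro v hv
          rw [mem_compl]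
          intro hvZ
          exact (mem_sdiff.1 (hZY hvZ)).2 hv
        · rw [image_insert, image_singleton, hxy]
          simp
      · intro v hv
        rcases mem_union.1 hv with h | h
        · exact (mem_sdiff.1 (hZY h)).1
        · rw [mem_insert, mem_singleton] at h
          rcases h with rfl | rfl
          · exact hx'
          · exact hy'
  · have h1 : ((F1 g ∪ (F2 g).image (fun p => p.1 ∪ p.2)).card : ℝ) ≤
        ((F1 g).card : ℝ) + ((F2 g).card : ℝ) := by
      exact_mod_cast (card_union_le _ _).trans (Nat.add_le_add_left card_image_le _)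
    refine h1.trans (hg.trans ?_)
    rw [avg_add, add_mul]
    refine add_le_add (le_of_eq ?_) ?_
    · have e1 : (fun g : Fin n → Fin N => ((F1 g).card : ℝ)) =
          fun g => ∑ Z ∈ powersetCard (u + 2) (univ : Finset (Fin n)), ∑ B ∈ Q,
            (if Z.image g = B then (1 : ℝ) else 0) := by
        ext g
        rw [hF1def]
        simp only
        rw [card_filter]
        push_cast
        refine sum_congr rfl fun Z _ => ?_
        rw [sum_ite_eq]
      rw [e1, avg_sum]
      have e2 : ∀ Z ∈ powersetCard (u + 2) (univ : Finset (Fin n)),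
          avg (wU N) (fun g : Fin n → Fin N => ∑ B ∈ Q, (if Z.image g = B then (1 : ℝ) else 0)) =
          ((u + 2).factorial : ℝ) * (Q.card : ℝ) / (N : ℝ) ^ (u + 2) := by
        intro Z hZ
        have hZc := (mem_powersetCard.1 hZ).2
        rw [avg_sum, sum_congr rfl fun B hB => avg_image hN Z B (by rw [hZc, (hQ.1 B hB).2]),
          sum_const, nsmul_eq_mul, hZc]
        ring
      rw [sum_congr rfl e2, sum_const, card_powersetCard, card_univ, Fintype.card_fin,
        nsmul_eq_mul]
      ring
    · have e1 : ∀ g : Fin n → Fin N, ((F2 g).card : ℝ) ≤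
          ∑ Z ∈ F, ∑ e ∈ powersetCard 2 (Zᶜ), (if (e.image g).card = 1 then (1 : ℝ) else 0) := by
        intro g
        rw [hF2def]
        simp only
        rw [card_filter, Nat.cast_sum, sum_sigma]
        refine le_of_eq (sum_congr rfl fun Z _ => sum_congr rfl fun e _ => ?_)
        push_cast
        rfl
      refine (avg_mono (wU N) (wU_nonneg N) e1).trans ?_
      rw [avg_sum]
      have e2 : ∀ Z ∈ F, avg (wU N) (fun g : Fin n → Fin N => ∑ e ∈ powersetCard 2 (Zᶜ),
          (if (e.image g).card = 1 then (1 : ℝ) else 0)) = ((n - u).choose 2 : ℝ) / N := by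
        intro Z hZ
        rw [avg_sum, sum_congr rfl fun e he => avg_pair hN (mem_powersetCard.1 he).2, sum_const,
          card_powersetCard, card_compl, Fintype.card_fin, (hF1 Z hZ).2, nsmul_eq_mul]
        ring
      rw [sum_congr rfl e2, sum_const, nsmul_eq_mul]
      have hN' : (0 : ℝ) < N := by exact_mod_cast hN
      have h2 : (n.choose u : ℝ) * ((n - u).choose 2 : ℝ) =
          ((u + 2).choose 2 : ℝ) * (n.choose (u + 2) : ℝ) := by
        have h4 := Nat.choose_mul (n := n) (k := u + 2) (s := u) (by omega)
        rw [Nat.add_sub_cancel_left] at h4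
        have h5 : (u + 2).choose u = (u + 2).choose 2 := by rw [Nat.choose_symm_add]
        rw [h5] at h4
        rw [mul_comm ((u + 2).choose 2 : ℝ)]
        exact_mod_cast h4.symm
      calc (F.card : ℝ) * (((n - u).choose 2 : ℝ) / N)
          ≤ (c * (n.choose u : ℝ)) * (((n - u).choose 2 : ℝ) / N) :=
            mul_le_mul_of_nonneg_right hF3 (by positivity)
        _ = c / N * ((n.choose u : ℝ) * ((n - u).choose 2 : ℝ)) := by ring
        _ = _ := by rw [h2]; ring

end Pool.Agent.T2H86.TU
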