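import Pool.Agent.T2H86.TU.Rainbow

/-!
Part 1, the induction: for all `t` the constant `4 R log (t + R) + R + 3`.
-/

set_option autoImplicit false
set_option linter.unusedSectionVars false

namespace Pool.Agent.T2H86.TU

open Finset Pool.Agent.H613T Pool.Agent.H123R2 Pool.Agent.W724.TG

/-- the constant of the first part -/
noncomputable def KK (R t : ℕ) : ℝ := 4 * R * Real.log ((t + R : ℕ) : ℝ) + R + 3

theorem KK_nonneg (R t : ℕ) : 0 ≤ KK R t := by
  unfold KK
  have := Real.log_natCast_nonneg (t + R)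
  positivity

theorem small_step {R u : ℕ} (hR : 1 ≤ R) (h : TD R u (KK R u / ((u + R).choose R : ℝ))) :
    TD R (u + 2) (KK R (u + 2) / ((u + 2 + R).choose R : ℝ)) := by
  classical
  set d := u + 2 + R with hd
  have hd3 : 3 ≤ d := by omega
  have hN : 0 < d ^ 2 := by positivity
  have hdN : d ≤ d ^ 2 := by nlinarith
  obtain ⟨Q, hQ1, hQ2⟩ := exists_system (univ : Finset (Fin (d ^ 2))) (t := u + 2) (R := R)
    (by rw [card_univ, Fintype.card_fin]; exact hdN)
  rw [card_univ, Fintype.card_fin] at hQ2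
  refine (rainbow hN h hQ1).mono ?_
  have hD : (0 : ℝ) < (d.choose R : ℝ) := by
    exact_mod_cast Nat.choose_pos (by omega : R ≤ d)
  have hU : (0 : ℝ) < ((u + R).choose R : ℝ) := by
    exact_mod_cast Nat.choose_pos (Nat.le_add_left R u)
  have hd0 : (0 : ℝ) < d := by
    have : (3 : ℝ) ≤ d := by exact_mod_cast hd3
    linarith
  have hNr : (((d ^ 2 : ℕ) : ℕ) : ℝ) = (d : ℝ) ^ 2 := by push_cast; rfl
  have hR0 : (1 : ℝ) ≤ R := by exact_mod_cast hR
  rw [le_div_iff₀ hD]
  -- the rainbow part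
  have hlog : Real.log (((d ^ 2 - (u + 2)).choose R : ℕ) : ℝ) ≤ 2 * R * Real.log d := by
    have h1 : ((d ^ 2 - (u + 2)).choose R) ≤ (d ^ 2) ^ R :=
      (Nat.choose_le_pow _ _).trans (Nat.pow_le_pow_left (Nat.sub_le _ _) _)
    have h2 : 0 < (d ^ 2 - (u + 2)).choose R := Nat.choose_pos (by
      have : d * 3 ≤ d ^ 2 := by nlinarith
      omega)
    have h3 : (((d ^ 2 - (u + 2)).choose R : ℕ) : ℝ) ≤ ((d : ℝ) ^ 2) ^ R := by exact_mod_cast h1
    refine (Real.log_le_log (by exact_mod_cast h2) h3).trans (le_of_eq ?_)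
    rw [Real.log_pow, Real.log_pow]
    push_cast
    ring
  have hfac : ((u + 2).factorial : ℝ) * ((d ^ 2).choose (u + 2) : ℝ) ≤ ((d ^ 2 : ℕ) : ℝ) ^ (u + 2) := by
    have h1 := Nat.descFactorial_le_pow (d ^ 2) (u + 2)
    rw [Nat.descFactorial_eq_factorial_mul_choose] at h1
    exact_mod_cast h1
  have hA : ((u + 2).factorial : ℝ) * (Q.card : ℝ) / ((d ^ 2 : ℕ) : ℝ) ^ (u + 2) * (d.choose R : ℝ) ≤
      1 + 2 * R * Real.log d := by
    have hNpos : (0 : ℝ) < ((d ^ 2 : ℕ) : ℝ) ^ (u + 2) := by positivity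
    have hl0 : 0 ≤ Real.log d := Real.log_natCast_nonneg d
    rw [div_mul_eq_mul_div, div_le_iff₀ hNpos]
    calc ((u + 2).factorial : ℝ) * (Q.card : ℝ) * (d.choose R : ℝ)
        = ((u + 2).factorial : ℝ) * ((d.choose R : ℝ) * (Q.card : ℝ)) := by ring
      _ ≤ ((u + 2).factorial : ℝ) * ((1 + Real.log (((d ^ 2 - (u + 2)).choose R : ℕ) : ℝ)) *
          ((d ^ 2).choose (u + 2) : ℝ)) := mul_le_mul_of_nonneg_left hQ2 (by positivity)
      _ ≤ ((u + 2).factorial : ℝ) * ((1 + 2 * R * Real.log d) *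
          ((d ^ 2).choose (u + 2) : ℝ)) := by
          refine mul_le_mul_of_nonneg_left (mul_le_mul_of_nonneg_right ?_ (by positivity))
            (by positivity)
          linarith
      _ = (1 + 2 * R * Real.log d) * (((u + 2).factorial : ℝ) * ((d ^ 2).choose (u + 2) : ℝ)) := by
          ring
      _ ≤ _ := mul_le_mul_of_nonneg_left hfac (by positivity)
  -- the other part
  have hid : (d.choose R : ℝ) * ((u + 2).choose 2 : ℝ) = (d.choose 2 : ℝ) * ((u + R).choose R : ℝ) := by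
    have h1 := Nat.choose_mul (n := d) (k := R + 2) (s := R) (by omega)
    have h2 := Nat.choose_mul (n := d) (k := R + 2) (s := 2) (by omega)
    have h3 : (R + 2).choose R = (R + 2).choose 2 := Nat.choose_symm_add
    have h4 : d - R = u + 2 := by omega
    have h5 : R + 2 - R = 2 := by omega
    have h6 : d - 2 = u + R := by omega
    have h7 : R + 2 - 2 = R := by omega
    rw [h4, h5, h3] at h1
    rw [h6, h7] at h2
    exact_mod_cast h1.symm.trans h2
  have hB : KK R u / ((u + R).choose R : ℝ) * ((u + 2).choose 2 : ℝ) / ((d ^ 2 : ℕ) : ℝ) *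
      (d.choose R : ℝ) ≤ KK R u / 2 := by
    have h1 : (d.choose 2 : ℝ) ≤ (d : ℝ) ^ 2 / 2 := by
      rw [Nat.cast_choose_two]
      nlinarith
    have h2 : KK R u / ((u + R).choose R : ℝ) * ((u + 2).choose 2 : ℝ) / ((d ^ 2 : ℕ) : ℝ) *
        (d.choose R : ℝ) = KK R u / ((u + R).choose R : ℝ) / (d : ℝ) ^ 2 *
          ((d.choose R : ℝ) * ((u + 2).choose 2 : ℝ)) := by
      rw [hNr]
      ring
    rw [h2, hid]
    have h3 : KK R u / ((u + R).choose R : ℝ) / (d : ℝ) ^ 2 *
        ((d.choose 2 : ℝ) * ((u + R).choose R : ℝ)) = KK R u * ((d.choose 2 : ℝ) / (d : ℝ) ^ 2) := by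
      field_simp
    rw [h3]
    have h4 : (d.choose 2 : ℝ) / (d : ℝ) ^ 2 ≤ 1 / 2 := by
      rw [div_le_iff₀ (by positivity)]
      linarith
    calc KK R u * ((d.choose 2 : ℝ) / (d : ℝ) ^ 2) ≤ KK R u * (1 / 2) :=
          mul_le_mul_of_nonneg_left h4 (KK_nonneg R u)
      _ = _ := by ring
  rw [add_mul]
  refine (add_le_add hA hB).trans ?_
  unfold KK
  have h1 : Real.log ((u + R : ℕ) : ℝ) ≤ Real.log d := by
    apply Real.log_le_log
    · exact_mod_cast (by omega : 0 < u + R)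
    · exact_mod_cast (by omega : u + R ≤ d)
  have h2 : (R : ℝ) * Real.log ((u + R : ℕ) : ℝ) ≤ R * Real.log d :=
    mul_le_mul_of_nonneg_left h1 (by linarith)
  rw [← hd]
  linarith

theorem small {R : ℕ} (hR : 1 ≤ R) : ∀ t : ℕ, TD R t (KK R t / ((t + R).choose R : ℝ))
  | 0 => by
    refine (TD.trivial R 0).mono ?_
    rw [Nat.zero_add, Nat.choose_self, Nat.cast_one, div_one]
    unfold KK
    have := Real.log_natCast_nonneg (0 + R)
    have h : (0 : ℝ) ≤ R := Nat.cast_nonneg _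
    nlinarith
  | 1 => by
    refine (TD.trivial R 1).mono ?_
    have h1 : (1 + R).choose R = R + 1 := by
      rw [Nat.add_comm, Nat.choose_succ_self_right]
    rw [h1, le_div_iff₀ (by positivity), one_mul]
    unfold KK
    have := Real.log_natCast_nonneg (1 + R)
    have h : (0 : ℝ) ≤ R := Nat.cast_nonneg _
    push_cast at this ⊢
    nlinarith
  | t + 2 => small_step hR (small hR t)

end Pool.Agent.T2H86.TU
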