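import Pool.Agent.T2H86.TU.Blow

/-!
Part 2: the recursion over a random partition into two parts.
-/

set_option autoImplicit false
set_option linter.unusedSectionVars false

namespace Pool.Agent.T2H86.TU

open Finset Pool.Agent.H613T Pool.Agent.H123R2 Pool.Agent.W724.TG

section
variable {V : Type} [Fintype V] [DecidableEq V]

/-- all unions of a member of `P` and a member of `Q` -/
def jn (P Q : Finset (Finset V)) : Finset (Finset V) := (P ×ˢ Q).image (fun p => p.1 ∪ p.2)

theorem mem_jn {P Q : Finset (Finset V)} {Z : Finset V} :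
    Z ∈ jn P Q ↔ ∃ X ∈ P, ∃ Y ∈ Q, X ∪ Y = Z := by
  unfold jn
  rw [mem_image]
  constructor
  · rintro ⟨p, hp, h⟩
    rw [mem_product] at hp
    exact ⟨p.1, hp.1, p.2, hp.2, h⟩
  · rintro ⟨X, hX, Y, hY, h⟩
    exact ⟨(X, Y), mem_product.2 ⟨hX, hY⟩, h⟩

theorem card_jn (P Q : Finset (Finset V)) : (jn P Q).card ≤ P.card * Q.card := by
  unfold jn
  exact card_image_le.trans (card_product _ _).le

theorem card_union_of {A X Y : Finset V} (hX : X ⊆ A) (hY : Y ⊆ Aᶜ) :
    (X ∪ Y).card = X.card + Y.card := by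
  apply card_union_of_disjoint
  rw [Finset.disjoint_left]
  intro v hv hv'
  exact (mem_compl.1 (hY hv')) (hX hv)

/-- a system from a partition into two parts -/
theorem fixed_part {R t : ℕ} (hRt : R ≤ t) {L M : ℝ} (hL : 0 ≤ L)
    (h : ∀ j ≤ t, TD R j (M / ((j + R).choose R : ℝ))) (A : Finset V) :
    ∃ F : Finset (Finset V), CovS univ R t F ∧
      (F.card : ℝ) ≤ ∑ z ∈ range (t + 1),
        (((A.card.choose z : ℝ) * ((Aᶜ).card.choose (t - z) : ℝ)) *
          ((if z + R ≤ t then L else M) / ((z + R).choose R : ℝ)) +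
        ((A.card.choose z : ℝ) * ((Aᶜ).card.choose (t - z) : ℝ)) *
          ((if z < R then 1 else Real.exp (-L)) * (M / ((t - z + R).choose R : ℝ)))) := by
  classical
  have hG : ∀ j : ℕ, ∃ G : Finset (Finset V), j ≤ t → CovS Aᶜ R j G ∧
      (G.card : ℝ) ≤ M / ((j + R).choose R : ℝ) * ((Aᶜ).card.choose j : ℝ) := by
    intro j
    by_cases hj : j ≤ t
    · obtain ⟨G, h1, h2⟩ := (h j hj).transport Aᶜ
      exact ⟨G, fun _ => ⟨h1, h2⟩⟩
    · exact ⟨∅, fun h => absurd h hj⟩
  choose G hG using hG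
  have hP : ∀ d : ℕ, ∃ P : Finset (Finset V), (∀ Z ∈ P, Z ⊆ A ∧ Z.card + R = d) ∧
      (t < d → d ≤ t + R → (∀ Y ⊆ A, Y.card = d → ∃ Z ∈ P, Z ⊆ Y) ∧
        (P.card : ℝ) ≤ M / (d.choose R : ℝ) * (A.card.choose (d - R) : ℝ)) ∧
      (R ≤ d → d ≤ t → ((Aᶜ).card.choose (t + R - d) : ℝ) * (P.card : ℝ) +
        ((G (t - d)).card : ℝ) * ((bad A d P).card : ℝ) ≤
        ((Aᶜ).card.choose (t + R - d) : ℝ) * (L / (d.choose R : ℝ) * (A.card.choose (d - R) : ℝ)) +
        ((G (t - d)).card : ℝ) * (Real.exp (-L) * (A.card.choose d : ℝ))) := by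
    intro d
    rcases Nat.lt_or_ge d R with hd | hd
    · exact ⟨∅, by simp, fun h => by omega, fun h => by omega⟩
    have hD : (0 : ℝ) < (d.choose R : ℝ) := by exact_mod_cast Nat.choose_pos hd
    rcases Nat.lt_or_ge t d with hdt | hdt
    · by_cases hdk : d ≤ t + R
      · obtain ⟨P, ⟨h1, h2⟩, h3⟩ := (h (d - R) (by omega)).transport A
        have h4 : d - R + R = d := by omega
        rw [h4] at h2 h3
        refine ⟨P, fun Z hZ => ⟨(h1 Z hZ).1, by rw [(h1 Z hZ).2, h4]⟩,
          fun _ _ => ⟨fun Y hY hYc => h2 Y hY hYc, h3⟩, fun _ h => by omega⟩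
      · exact ⟨∅, by simp, fun _ h => absurd h hdk, fun _ h => by omega⟩
    · obtain ⟨P, h1, h2⟩ := random_family A (d := d) (R := R) hd (L := L)
        (w := ((Aᶜ).card.choose (t + R - d) : ℝ) / (d.choose R : ℝ))
        (β := ((G (t - d)).card : ℝ)) hL (by positivity) (Nat.cast_nonneg _)
      refine ⟨P, fun Z hZ => ⟨(h1 Z hZ).1, ?_⟩, fun h => by omega, fun _ _ => ?_⟩
      · rw [(h1 Z hZ).2]
        omega
      · have e1 : ((Aᶜ).card.choose (t + R - d) : ℝ) / (d.choose R : ℝ) *
            ((d.choose R : ℝ) * (P.card : ℝ)) =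
            ((Aᶜ).card.choose (t + R - d) : ℝ) * (P.card : ℝ) := by
          field_simp
        have e2 : ((Aᶜ).card.choose (t + R - d) : ℝ) / (d.choose R : ℝ) *
            (L * (A.card.choose (d - R) : ℝ)) =
            ((Aᶜ).card.choose (t + R - d) : ℝ) *
              (L / (d.choose R : ℝ) * (A.card.choose (d - R) : ℝ)) := by
          field_simp
        rw [e1, e2] at h2
        exact h2
  choose P hP1 hP2 hP3 using hP
  set FA : Finset (Finset V) := (range (t + 1)).biUnion
    (fun z => jn (P (z + R)) (powersetCard (t - z) Aᶜ)) with hFA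
  set FB : Finset (Finset V) := (range (t + 1)).biUnion
    (fun z => jn (bad A z (P z)) (G (t - z))) with hFB
  refine ⟨FA ∪ FB, ⟨?_, ?_⟩, ?_⟩
  · intro Z hZ
    refine ⟨subset_univ _, ?_⟩
    rcases mem_union.1 hZ with hZ | hZ
    · obtain ⟨z, hz, hZ⟩ := mem_biUnion.1 hZ
      rw [mem_range] at hz
      obtain ⟨X, hX, Y, hY, rfl⟩ := mem_jn.1 hZ
      obtain ⟨h1, h2⟩ := hP1 _ X hX
      obtain ⟨h3, h4⟩ := mem_powersetCard.1 hY
      rw [card_union_of h1 h3]
      omega
    · obtain ⟨z, hz, hZ⟩ := mem_biUnion.1 hZ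
      rw [mem_range] at hz
      obtain ⟨X, hX, Y, hY, rfl⟩ := mem_jn.1 hZ
      obtain ⟨⟨h1, h2⟩, _⟩ := mem_bad.1 hX
      obtain ⟨h3, h4⟩ := (hG (t - z) (Nat.sub_le _ _)).1.1 Y hY
      rw [card_union_of h1 h3]
      omega
  · intro Y _ hY
    have hsplit : (Y ∩ A).card + (Y ∩ Aᶜ).card = t + R := by
      rw [← hY, ← card_union_of (A := A) inter_subset_right inter_subset_right,
        ← inter_union_distrib_left, union_compl, inter_univ]
    by_cases hcov : ∃ Z ∈ P (Y ∩ A).card, Z ⊆ Y ∩ A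
    · obtain ⟨Z, hZ, hZY⟩ := hcov
      obtain ⟨h1, h2⟩ := hP1 _ Z hZ
      refine ⟨Z ∪ (Y ∩ Aᶜ), ?_, ?_⟩
      · apply mem_union_left
        rw [hFA, mem_biUnion]
        refine ⟨Z.card, ?_, ?_⟩
        · rw [mem_range]
          omega
        · rw [mem_jn]
          refine ⟨Z, by rw [h2]; exact hZ, Y ∩ Aᶜ, ?_, rfl⟩
          rw [mem_powersetCard]
          exact ⟨inter_subset_right, by omega⟩
      · exact union_subset (hZY.trans inter_subset_left) inter_subset_left
    · push Not at hcov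
      have hd : (Y ∩ A).card ≤ t := by
        by_contra hcon
        push Not at hcon
        obtain ⟨Z, hZ, hZY⟩ := (hP2 _ hcon (by omega)).1 (Y ∩ A) inter_subset_right rfl
        exact hcov Z hZ hZY
      have hb : Y ∩ A ∈ bad A (Y ∩ A).card (P (Y ∩ A).card) :=
        mem_bad.2 ⟨⟨inter_subset_right, rfl⟩, hcov⟩
      obtain ⟨Z, hZ, hZY⟩ := (hG (t - (Y ∩ A).card) (Nat.sub_le _ _)).1.2 (Y ∩ Aᶜ)
        inter_subset_right (by omega)
      refine ⟨(Y ∩ A) ∪ Z, ?_, union_subset inter_subset_left (hZY.trans inter_subset_left)⟩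
      apply mem_union_right
      rw [hFB, mem_biUnion]
      exact ⟨(Y ∩ A).card, by rw [mem_range]; omega, mem_jn.2 ⟨_, hb, Z, hZ, rfl⟩⟩
  · -- the number of members
    set E : ℕ → ℝ := fun z => (A.card.choose z : ℝ) * ((Aᶜ).card.choose (t - z) : ℝ) with hE
    have hE0 : ∀ z, 0 ≤ E z := fun z => by rw [hE]; positivity
    set g : ℕ → ℝ := fun z => ((P (z + R)).card : ℝ) * ((Aᶜ).card.choose (t - z) : ℝ) with hg
    set f : ℕ → ℝ := fun z => ((bad A z (P z)).card : ℝ) * ((G (t - z)).card : ℝ) with hf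
    have hcard : ((FA ∪ FB).card : ℝ) ≤ ∑ z ∈ range (t + 1), g z + ∑ z ∈ range (t + 1), f z := by
      have h1 : FA.card ≤ ∑ z ∈ range (t + 1), (P (z + R)).card * ((Aᶜ).card.choose (t - z)) := by
        refine card_biUnion_le.trans (sum_le_sum fun z _ => ?_)
        refine (card_jn _ _).trans ?_
        rw [card_powersetCard]
      have h2 : FB.card ≤ ∑ z ∈ range (t + 1), (bad A z (P z)).card * (G (t - z)).card :=
        card_biUnion_le.trans (sum_le_sum fun z _ => card_jn _ _)
      have h3 := (card_union_le FA FB).trans (Nat.add_le_add h1 h2)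
      have h4 : ((FA ∪ FB).card : ℝ) ≤ ((∑ z ∈ range (t + 1), (P (z + R)).card *
          ((Aᶜ).card.choose (t - z)) + ∑ z ∈ range (t + 1), (bad A z (P z)).card *
          (G (t - z)).card : ℕ) : ℝ) := by exact_mod_cast h3
      refine h4.trans (le_of_eq ?_)
      push_cast
      rfl
    refine hcard.trans ?_
    obtain ⟨s, hs⟩ : ∃ s, t + 1 = s + R := ⟨t + 1 - R, by omega⟩
    have hs' : t + 1 = R + s := by omega
    rw [sum_add_distrib]
    have e1 : ∑ z ∈ range (t + 1), g z = ∑ z ∈ range s, g z + ∑ i ∈ range R, g (s + i) := by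
      rw [hs, sum_range_add]
    have e2 : ∑ z ∈ range (t + 1), f z = ∑ z ∈ range R, f z + ∑ i ∈ range s, f (R + i) := by
      rw [hs', sum_range_add]
    have e3 : ∑ z ∈ range (t + 1), E z * ((if z + R ≤ t then L else M) / ((z + R).choose R : ℝ)) =
        ∑ z ∈ range s, E z * (L / ((z + R).choose R : ℝ)) +
          ∑ i ∈ range R, E (s + i) * (M / ((s + i + R).choose R : ℝ)) := by
      rw [hs, sum_range_add]
      congr 1
      · refine sum_congr rfl fun z hz => ?_
        rw [mem_range] at hz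
        rw [if_pos (by omega)]
      · refine sum_congr rfl fun z hz => ?_
        rw [if_neg (by omega)]
    have e4 : ∑ z ∈ range (t + 1), E z * ((if z < R then 1 else Real.exp (-L)) *
        (M / ((t - z + R).choose R : ℝ))) =
        ∑ z ∈ range R, E z * (M / ((t - z + R).choose R : ℝ)) +
          ∑ i ∈ range s, E (R + i) * (Real.exp (-L) * (M / ((t - (R + i) + R).choose R : ℝ))) := by
      rw [hs', sum_range_add]
      congr 1
      · refine sum_congr rfl fun z hz => ?_
        rw [mem_range] at hz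
        rw [if_pos hz, one_mul]
      · refine sum_congr rfl fun z hz => ?_
        rw [if_neg (by omega)]
    have hGc : ∀ z ≤ t, ((G (t - z)).card : ℝ) ≤
        M / ((t - z + R).choose R : ℝ) * ((Aᶜ).card.choose (t - z) : ℝ) :=
      fun z _ => (hG (t - z) (Nat.sub_le _ _)).2
    rw [e1, e2, e3, e4]
    have i1 : ∑ z ∈ range s, g z + ∑ i ∈ range s, f (R + i) ≤
        ∑ z ∈ range s, E z * (L / ((z + R).choose R : ℝ)) +
          ∑ i ∈ range s, E (R + i) * (Real.exp (-L) * (M / ((t - (R + i) + R).choose R : ℝ))) := by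
      rw [← sum_add_distrib, ← sum_add_distrib]
      refine sum_le_sum fun z hz => ?_
      rw [mem_range] at hz
      have h1 := hP3 (z + R) (by omega) (by omega)
      have h2 : t + R - (z + R) = t - z := by omega
      have h3 : z + R - R = z := by omega
      rw [h2, h3] at h1
      have h4 := hGc (z + R) (by omega)
      have h5 : Real.exp (-L) * (A.card.choose (z + R) : ℝ) * ((G (t - (z + R))).card : ℝ) ≤
          Real.exp (-L) * (A.card.choose (z + R) : ℝ) *
            (M / ((t - (z + R) + R).choose R : ℝ) * ((Aᶜ).card.choose (t - (z + R)) : ℝ)) :=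
        mul_le_mul_of_nonneg_left h4 (by positivity)
      simp only [hg, hf, hE]
      have h6 : R + z = z + R := Nat.add_comm _ _
      rw [h6]
      linarith
    have i2 : ∑ i ∈ range R, g (s + i) ≤
        ∑ i ∈ range R, E (s + i) * (M / ((s + i + R).choose R : ℝ)) := by
      refine sum_le_sum fun i hi => ?_
      rw [mem_range] at hi
      have h1 := (hP2 (s + i + R) (by omega) (by omega)).2
      have h2 : s + i + R - R = s + i := by omega
      rw [h2] at h1
      simp only [hg, hE]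
      calc ((P (s + i + R)).card : ℝ) * ((Aᶜ).card.choose (t - (s + i)) : ℝ)
          ≤ (M / ((s + i + R).choose R : ℝ) * (A.card.choose (s + i) : ℝ)) *
            ((Aᶜ).card.choose (t - (s + i)) : ℝ) :=
            mul_le_mul_of_nonneg_right h1 (Nat.cast_nonneg _)
        _ = _ := by ring
    have i3 : ∑ z ∈ range R, f z ≤ ∑ z ∈ range R, E z * (M / ((t - z + R).choose R : ℝ)) := by
      refine sum_le_sum fun z hz => ?_
      rw [mem_range] at hz
      have h1 : ((bad A z (P z)).card : ℝ) ≤ (A.card.choose z : ℝ) := by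
        exact_mod_cast card_bad_le A z (P z)
      have h2 := hGc z (by omega)
      simp only [hf, hE]
      calc ((bad A z (P z)).card : ℝ) * ((G (t - z)).card : ℝ)
          ≤ (A.card.choose z : ℝ) *
            (M / ((t - z + R).choose R : ℝ) * ((Aᶜ).card.choose (t - z) : ℝ)) :=
            mul_le_mul h1 h2 (Nat.cast_nonneg _) (Nat.cast_nonneg _)
        _ = _ := by ring
    linarith

end

end Pool.Agent.T2H86.TU
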